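import Pool.Agent.OGP.Alg
import Pool.Agent.OGP.OB.Defs

/-!
# OGP, operator algebra part: matrix algebras and their tracial ultraproduct

The matrix algebra with the operator norm and the normalised trace `ntr` is a `TrAlg`; `MU 𝒰` is the
tracial ultraproduct of the matrix algebras `M_{n+1}(ℂ)` and `MU.cls U` the class of a sequence of
unitaries.
-/

open Filter Topology Matrix
open scoped Matrix.Norms.L2Operator

namespace Pool.Agent.OGP

section
variable {ι : Type} [Fintype ι]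

theorem trace_star_mul (X Y : Matrix ι ι ℂ) :
    (Xᴴ * Y).trace = ∑ j, ∑ i, star (X i j) * Y i j := by
  unfold Matrix.trace
  refine Finset.sum_congr rfl fun j _ => ?_
  rw [Matrix.diag_apply, Matrix.mul_apply]
  rfl

theorem trace_star_mul_self (X : Matrix ι ι ℂ) :
    (Xᴴ * X).trace = ((∑ j, ∑ i, ‖X i j‖ ^ 2 : ℝ) : ℂ) := by
  rw [trace_star_mul]
  push_cast
  refine Finset.sum_congr rfl fun j _ => Finset.sum_congr rfl fun i _ => ?_
  exact Complex.conj_mul' (X i j)

theorem ntr_star_mul_self (X : Matrix ι ι ℂ) :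
    ntr (Xᴴ * X) = (((Fintype.card ι : ℝ)⁻¹ * ∑ j, ∑ i, ‖X i j‖ ^ 2 : ℝ) : ℂ) := by
  unfold ntr
  rw [trace_star_mul_self, Complex.ofReal_mul, Complex.ofReal_inv, Complex.ofReal_natCast]

variable [DecidableEq ι]

theorem col_mul_le (X Y : Matrix ι ι ℂ) (j : ι) :
    ∑ i, ‖(X * Y) i j‖ ^ 2 ≤ ‖X‖ ^ 2 * ∑ i, ‖Y i j‖ ^ 2 := by
  have h := Matrix.l2_opNorm_mulVec X (WithLp.toLp 2 fun i => Y i j)
  have h2 := pow_le_pow_left₀ (norm_nonneg _) h 2
  rw [mul_pow, EuclideanSpace.norm_sq_eq, EuclideanSpace.norm_sq_eq] at h2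
  exact h2

/-- The matrix algebra with the operator norm and the normalised trace. -/
noncomputable instance instTrAlgMat [Nonempty ι] : TrAlg (Matrix ι ι ℂ) where
  tau :=
    { toFun := ntr
      map_add' := fun X Y => by unfold ntr; rw [Matrix.trace_add, mul_add]
      map_smul' := fun c X => by
        unfold ntr
        rw [Matrix.trace_smul, smul_eq_mul, smul_eq_mul, RingHom.id_apply]
        ring }
  tau_one := by
    change ntr 1 = 1
    unfold ntr
    rw [Matrix.trace_one]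
    exact inv_mul_cancel₀ (Nat.cast_ne_zero.2 Fintype.card_ne_zero)
  tau_star X := by
    change ntr Xᴴ = star (ntr X)
    unfold ntr
    rw [Matrix.trace_conjTranspose, star_mul', star_inv₀, star_natCast]
  tau_comm X Y := by
    change ntr _ = ntr _
    unfold ntr
    rw [Matrix.trace_mul_comm]
  tau_pos X := by
    change 0 ≤ (ntr (Xᴴ * X)).re
    rw [ntr_star_mul_self, Complex.ofReal_re]
    positivity
  tau_faithful X h := by
    change ntr (Xᴴ * X) = 0 at h
    unfold ntr at h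
    rw [trace_star_mul_self] at h
    have h2 := (mul_eq_zero.1 h).resolve_left
      (inv_ne_zero (Nat.cast_ne_zero.2 Fintype.card_ne_zero))
    norm_cast at h2
    ext i j
    have h3 := (Finset.sum_eq_zero_iff_of_nonneg (fun j _ =>
      Finset.sum_nonneg fun i _ => by positivity)).1 h2 j (Finset.mem_univ j)
    have h4 := (Finset.sum_eq_zero_iff_of_nonneg (fun i _ => by positivity)).1 h3 i
      (Finset.mem_univ i)
    simpa using h4
  tau_mul_le X Y := by
    change (ntr ((X * Y)ᴴ * (X * Y))).re ≤ ‖X‖ ^ 2 * (ntr (Yᴴ * Y)).re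
    rw [ntr_star_mul_self, ntr_star_mul_self, Complex.ofReal_re, Complex.ofReal_re]
    have h : ∑ j, ∑ i, ‖(X * Y) i j‖ ^ 2 ≤ ‖X‖ ^ 2 * ∑ j, ∑ i, ‖Y i j‖ ^ 2 := by
      rw [Finset.mul_sum]
      exact Finset.sum_le_sum fun j _ => col_mul_le X Y j
    calc _ ≤ (Fintype.card ι : ℝ)⁻¹ * (‖X‖ ^ 2 * ∑ j, ∑ i, ‖Y i j‖ ^ 2) :=
          mul_le_mul_of_nonneg_left h (by positivity)
      _ = _ := by ring

theorem tau_eq_ntr [Nonempty ι] (X : Matrix ι ι ℂ) : TrAlg.tau X = ntr X := rfl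

theorem two_eq_n2 [Nonempty ι] (X : Matrix ι ι ℂ) : two X = n2 X := by
  unfold two n2
  change Real.sqrt (ntr (Xᴴ * X)).re = _
  rw [ntr_star_mul_self, Finset.sum_comm, Complex.ofReal_re]

theorem norm_unitary_le (U : UG ι) : ‖(U : Matrix ι ι ℂ)‖ ≤ 1 := by
  rcases subsingleton_or_nontrivial (Matrix ι ι ℂ) with h | h
  · rw [Subsingleton.elim (U : Matrix ι ι ℂ) 0, norm_zero]
    exact zero_le_one
  · exact (CStarRing.norm_coe_unitary U).le

end

/-- The tracial ultraproduct of the matrix algebras `M_{n+1}(ℂ)`, `n ∈ ℕ`, along `𝒰`. -/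
def MU (𝒰 : Ultrafilter ℕ) : Type := TU (fun n : ℕ => Matrix (Fin (n + 1)) (Fin (n + 1)) ℂ) 𝒰

namespace MU

variable (𝒰 : Ultrafilter ℕ)

noncomputable instance instRing : Ring (MU 𝒰) := TU.instRing _ 𝒰

noncomputable instance instAlgebra : Algebra ℂ (MU 𝒰) := TU.instAlgebra _ 𝒰

noncomputable instance instStarRing : StarRing (MU 𝒰) := TU.instStarRing _ 𝒰

instance instStarModule : StarModule ℂ (MU 𝒰) := TU.instStarModule _ 𝒰

/-- The class in the matrix ultraproduct of a family of matrices bounded in the operator norm. -/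
noncomputable def mk : BF (fun n : ℕ => Matrix (Fin (n + 1)) (Fin (n + 1)) ℂ) →ₐ[ℂ] MU 𝒰 :=
  TU.mk _ 𝒰

theorem star_mk (x : BF (fun n : ℕ => Matrix (Fin (n + 1)) (Fin (n + 1)) ℂ)) :
    star (mk 𝒰 x) = mk 𝒰 (star x) := rfl

theorem mk_surjective : Function.Surjective (mk 𝒰) := TU.mk_surjective _ 𝒰

variable {𝒰} in
/-- The trace of the matrix ultraproduct: the limit of the normalised traces. -/
noncomputable def tr : MU 𝒰 → ℂ := TU.tr _ 𝒰

theorem tendsto_tr (x : BF (fun n : ℕ => Matrix (Fin (n + 1)) (Fin (n + 1)) ℂ)) :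
    Tendsto (fun n => ntr ((x : ∀ n : ℕ, Matrix (Fin (n + 1)) (Fin (n + 1)) ℂ) n)) 𝒰
      (𝓝 (tr (mk 𝒰 x))) := TU.tendsto_tr _ 𝒰 x

/-- A sequence of unitary matrices as a bounded family. -/
def bf (U : ∀ n : ℕ, UG (Fin (n + 1))) :
    BF (fun n : ℕ => Matrix (Fin (n + 1)) (Fin (n + 1)) ℂ) :=
  ⟨fun n => (U n : Matrix (Fin (n + 1)) (Fin (n + 1)) ℂ), 1, fun _ => norm_unitary_le _⟩

/-- The class in the matrix ultraproduct of a sequence of unitary matrices. -/
noncomputable def cls (U : ∀ n : ℕ, UG (Fin (n + 1))) : MU 𝒰 := mk 𝒰 (bf U)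

end MU

end Pool.Agent.OGP
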