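import Pool.Agent.OGP.OB.LG
import Pool.Agent.OGP.OB.Mat

/-!
# OGP, operator algebra part: the group algebra inside the group von Neumann algebra
-/

open Filter Topology
open scoped ENNReal InnerProductSpace

namespace Pool.Agent.OGP

section group
variable (G : Type*) [Group G]

/-- The group element `g` in the group von Neumann algebra. -/
noncomputable def lamE : G →* LG G where
  toFun g := ⟨lam G g, lam_mem G g⟩
  map_one' := Subtype.ext (lam_one G)
  map_mul' g h := Subtype.ext (lam_mul G g h).symm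

theorem star_lamE (g : G) : star (lamE G g) = lamE G g⁻¹ := Subtype.ext (star_lam G g)

theorem star_lamE_mul (g : G) : star (lamE G g) * lamE G g = 1 := by
  rw [star_lamE, ← map_mul, inv_mul_cancel, map_one]

theorem norm_lamE_le (g : G) : ‖lamE G g‖ ≤ 1 := by
  have h := CStarRing.norm_star_mul_self (x := lamE G g)
  rw [star_lamE_mul] at h
  have h1 : ‖(1 : LG G)‖ ≤ 1 := by
    have h2 := CStarRing.norm_star_mul_self (x := (1 : LG G))
    rw [star_one, one_mul] at h2
    have h3 : (0:ℝ) ≤ ‖(1 : LG G)‖ := norm_nonneg _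
    nlinarith
  nlinarith [norm_nonneg (lamE G g)]

/-- The left regular representation of the group algebra. -/
noncomputable def lamA : MonoidAlgebra ℂ G →ₐ[ℂ] LG G := MonoidAlgebra.lift ℂ (LG G) G (lamE G)

theorem lamA_single (g : G) (z : ℂ) : lamA G (MonoidAlgebra.single g z) = z • lamE G g := by
  unfold lamA
  rw [MonoidAlgebra.lift_single]

/-- The coordinates of `f δ_1` are the coefficients of `f`. -/
theorem lamA_dl (f : MonoidAlgebra ℂ G) (h : G) :
    ((lamA G f : LG G) : ell2 G →L[ℂ] ell2 G) (dl 1) h = f.coeff h := by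
  classical
  induction f using MonoidAlgebra.induction_linear with
  | zero => rw [map_zero]; rfl
  | add f g hf hg =>
    rw [map_add, MonoidAlgebra.coeff_add, Finsupp.add_apply, ← hf, ← hg]
    rfl
  | single g z =>
    rw [lamA_single, MonoidAlgebra.coeff_single, Finsupp.single_apply]
    change z * (lam G g (dl 1)) h = _
    rw [lam_dl, mul_one, dl_apply]
    simp only [eq_comm (a := h)]
    split_ifs <;> simp

/-- The trace of an element of the group algebra is its coefficient at `1`. -/
theorem tau_lamA (f : MonoidAlgebra ℂ G) : TrAlg.tau (lamA G f) = f.coeff 1 := by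
  change inner ℂ (dl 1) (((lamA G f : LG G) : ell2 G →L[ℂ] ell2 G) (dl 1)) = _
  rw [inner_dl_left, lamA_dl]

theorem two_eq_norm (T : LG G) : two T = ‖(T : ell2 G →L[ℂ] ell2 G) (dl 1)‖ := by
  unfold two
  change Real.sqrt (inner ℂ (dl 1) ((star (T : ell2 G →L[ℂ] ell2 G) * T) (dl 1))).re = _
  rw [inner_star_mul, inner_self_eq_norm_sq_to_K]
  norm_cast
  exact Real.sqrt_sq (norm_nonneg _)

/-- The 2-norm of an element of the group algebra. -/
theorem two_lamA (f : MonoidAlgebra ℂ G) :
    two (lamA G f) ^ 2 = f.coeff.sum fun _ z => ‖z‖ ^ 2 := by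
  rw [two_eq_norm]
  have h := ell2.norm_sq_eq (((lamA G f : LG G) : ell2 G →L[ℂ] ell2 G) (dl 1))
  have e : (2 : ℝ≥0∞).toReal = ((2 : ℕ) : ℝ) := by norm_num
  rw [e] at h
  simp only [Real.rpow_natCast] at h
  rw [h]
  simp only [lamA_dl]
  rw [tsum_eq_sum (s := f.coeff.support)]
  · rfl
  · intro g hg
    rw [Finsupp.notMem_support_iff.1 hg]
    simp

/-- The group algebra is dense in `ℓ²(G)`. -/
theorem exists_two_lt (T : LG G) {ε : ℝ} (hε : 0 < ε) :
    ∃ f : MonoidAlgebra ℂ G, two (T - lamA G f) < ε := by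
  have h := hasSum_dl ((T : ell2 G →L[ℂ] ell2 G) (dl 1))
  have h2 := (Metric.tendsto_nhds.1 h) ε hε
  obtain ⟨s, hs⟩ := h2.exists
  refine ⟨∑ g ∈ s, MonoidAlgebra.single g (((T : ell2 G →L[ℂ] ell2 G) (dl 1)) g), ?_⟩
  rw [two_eq_norm]
  have e : ((T - lamA G (∑ g ∈ s, MonoidAlgebra.single g
      (((T : ell2 G →L[ℂ] ell2 G) (dl 1)) g)) : LG G) : ell2 G →L[ℂ] ell2 G) (dl 1) =
      (T : ell2 G →L[ℂ] ell2 G) (dl 1) -
      ∑ g ∈ s, ((T : ell2 G →L[ℂ] ell2 G) (dl 1)) g • (dl g : ell2 G) := by
    change (T : ell2 G →L[ℂ] ell2 G) (dl 1) - ((lamA G (∑ g ∈ s, MonoidAlgebra.single g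
      (((T : ell2 G →L[ℂ] ell2 G) (dl 1)) g)) : LG G) : ell2 G →L[ℂ] ell2 G) (dl 1) = _
    congr 1
    ext k
    rw [lamA_dl, MonoidAlgebra.coeff_sum, Finsupp.finsetSum_apply, ell2.sum_co]
    refine Finset.sum_congr rfl fun g _ => ?_
    classical
    rw [MonoidAlgebra.coeff_single, Finsupp.single_apply, ell2.smul_co, dl_apply]
    simp only [eq_comm (a := k)]
    split_ifs <;> simp
  rw [e, ← dist_eq_norm, dist_comm]
  exact hs

end group

/-! ### The free group -/

/-- The free group factor `L(F_2)`. -/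
noncomputable abbrev LF2 := LG (FreeGroup (Fin 2))

/-- The left regular representation of the group algebra of the free group. -/
noncomputable abbrev lamF : CF →ₐ[ℂ] LF2 := lamA (FreeGroup (Fin 2))

/-- The generator `a` of the free group, in `L(F_2)`. -/
noncomputable def la : LF2 := lamE (FreeGroup (Fin 2)) (FreeGroup.of 0)

/-- The generator `b` of the free group, in `L(F_2)`. -/
noncomputable def lb : LF2 := lamE (FreeGroup (Fin 2)) (FreeGroup.of 1)

theorem lamF_mst (f : CF) : lamF (mst f) = star (lamF f) := by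
  unfold mst
  rw [map_finsuppSum]
  conv_rhs => rw [← MonoidAlgebra.sum_coeff_single f, map_finsuppSum]
  unfold Finsupp.sum
  rw [star_sum]
  refine Finset.sum_congr rfl fun g _ => ?_
  beta_reduce
  rw [lamA_single, lamA_single, star_smul, star_lamE]

theorem two_lamF (f : CF) : two (lamF f) ^ 2 = msq f := two_lamA _ f

theorem lamF_gb : lamF gb = lb := by
  unfold gb
  rw [lamA_single, one_smul]
  rfl

theorem lamF_lau (c : ℤ →₀ ℂ) : lamF (lau c) =
    c.sum fun m z => z • lamE (FreeGroup (Fin 2)) (FreeGroup.of 0 ^ m) := by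
  unfold lau
  rw [map_finsuppSum]
  refine Finsupp.sum_congr fun m _ => ?_
  rw [lamA_single]

end Pool.Agent.OGP
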