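import Pool.Agent.OGP.OB.Iface
import Pool.Agent.OGP.OB.Ext2

/-!
# OGP, operator algebra part: existence of the random embedding
-/

open Filter Topology Matrix

universe u

namespace Pool.Agent.OGP

section
open scoped Matrix.Norms.L2Operator

/-- The homomorphism of the free group given by two sequences of unitaries. -/
noncomputable def psiUV (U V : ∀ n : ℕ, UG (Fin (n + 1))) :
    FreeGroup (Fin 2) →* BF (fun n : ℕ => Matrix (Fin (n + 1)) (Fin (n + 1)) ℂ) where
  toFun g := MU.bf fun n => evF (U n) (V n) g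
  map_one' := by
    apply Subtype.ext
    funext n
    exact congrArg (fun x : UG (Fin (n + 1)) => (x : Matrix (Fin (n + 1)) (Fin (n + 1)) ℂ))
      (map_one (evF (U n) (V n)))
  map_mul' g h := by
    apply Subtype.ext
    funext n
    exact congrArg (fun x : UG (Fin (n + 1)) => (x : Matrix (Fin (n + 1)) (Fin (n + 1)) ℂ))
      (map_mul (evF (U n) (V n)) g h)

theorem exists_emb_aux (𝒰 : Ultrafilter ℕ) (h𝒰 : (𝒰 : Filter ℕ) ≤ atTop)
    (U V : ∀ n : ℕ, UG (Fin (n + 1)))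
    (hfree : ∀ g : FreeGroup (Fin 2), g ≠ 1 →
      Tendsto (fun n => utr (evF (U n) (V n) g)) 𝒰 (𝓝 0)) :
    ∃ π : LF2 →⋆ₐ[ℂ] MU 𝒰, (∀ x, MU.tr (π x) = TrAlg.tau x) ∧
      ∀ g, π (lamE (FreeGroup (Fin 2)) g) = MU.cls 𝒰 fun n => evF (U n) (V n) g := by
  have h := exists_hom (G := FreeGroup (Fin 2))
    (A := fun n : ℕ => Matrix (Fin (n + 1)) (Fin (n + 1)) ℂ) (𝒰 := 𝒰) (ψ := psiUV U V) h𝒰
    (fun g => by
      apply Subtype.ext
      funext n
      exact congrArg (fun x : UG (Fin (n + 1)) => (x : Matrix (Fin (n + 1)) (Fin (n + 1)) ℂ))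
        (map_inv (evF (U n) (V n)) g).symm)
    (fun g hg => hfree g hg)
  exact h

end

/-- If `U_n, V_n` are asymptotically free Haar unitaries along `𝒰` then there is an embedding of
`L(F_2)` in the matrix ultraproduct mapping the generators to the classes of `U` and `V`. -/
theorem exists_emb (𝒰 : Ultrafilter ℕ) (h𝒰 : (𝒰 : Filter ℕ) ≤ atTop)
    (U V : ∀ n : ℕ, UG (Fin (n + 1)))
    (hfree : ∀ g : FreeGroup (Fin 2), g ≠ 1 →
      Tendsto (fun n => utr (evF (U n) (V n) g)) 𝒰 (𝓝 0)) :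
    ∃ π : LF2 →⋆ₐ[ℂ] MU 𝒰, IsEmb π ∧ π la = MU.cls 𝒰 U ∧ π lb = MU.cls 𝒰 V := by
  obtain ⟨π, h1, h2⟩ := exists_emb_aux 𝒰 h𝒰 U V hfree
  refine ⟨π, ⟨h1, fun x y hxy => ?_⟩, ?_, ?_⟩
  · rw [← sub_eq_zero]
    apply TrAlg.tau_faithful
    rw [← h1, map_mul, map_star, map_sub, hxy, sub_self, mul_zero]
    have h3 := h1 0
    rwa [map_zero, map_zero] at h3
  · rw [show la = lamE (FreeGroup (Fin 2)) (FreeGroup.of 0) from rfl, h2]
    congr 1
    funext n
    unfold evF
    rw [FreeGroup.lift_apply_of]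
    rfl
  · rw [show lb = lamE (FreeGroup (Fin 2)) (FreeGroup.of 1) from rfl, h2]
    congr 1
    funext n
    unfold evF
    rw [FreeGroup.lift_apply_of]
    rfl

end Pool.Agent.OGP
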