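import Pool.Agent.OGP.OB.Kap
import Pool.Agent.OGP.OB.Nn

/-!
# OGP, operator algebra part: extension of a representation of the group algebra

Let `ψ : G → ` (bounded families of unitaries of the C*-algebras `A n`) be a group homomorphism with
`lim tau (ψ g n) = 0` along `𝒰` for `g ≠ 1`.  Then there is a trace preserving *-homomorphism
`LG G → TU A 𝒰` which maps `g` to the class of `ψ g`.
-/

open Filter Topology

namespace Pool.Agent.OGP

/-! ### Approximation of `(1 + y* y)⁻¹` by a geometric sum -/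

section neumann
variable {A : Type*} [CStarAlgebra A]

/-- `1 - (1 + y* y) / M`. -/
noncomputable def sg (M : ℝ) (y : A) : A := 1 - ((M : ℂ)⁻¹) • (1 + star y * y)

theorem norm_sg_le (y : A) {C : ℝ} (hC : ‖y‖ ≤ C) : ‖sg (1 + C ^ 2) y‖ ≤ 1 - (1 + C ^ 2)⁻¹ := by
  have hC0 : 0 ≤ C := (norm_nonneg _).trans hC
  have e : sg (1 + C ^ 2) y =
      cfc (fun t : ℝ => 1 - (1 + C ^ 2)⁻¹ * (1 + t)) (star y * y) := by
    rw [cfc_sub (fun _ : ℝ => (1 : ℝ)) (fun t => (1 + C ^ 2)⁻¹ * (1 + t)) _ (by fun_prop)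
      (by fun_prop), cfc_const_mul _ (fun t : ℝ => 1 + t) _ (by fun_prop), cfc_one_add,
      cfc_const (1 : ℝ) _ (sa y), map_one]
    unfold sg
    congr 1
    have h : ((1 + C ^ 2 : ℝ) : ℂ)⁻¹ = (((1 + C ^ 2)⁻¹ : ℝ) : ℂ) := by push_cast; rfl
    rw [h]
    exact Complex.coe_smul _ _
  have hM : 0 < 1 + C ^ 2 := by positivity
  have hM1 : (1 + C ^ 2)⁻¹ ≤ 1 := inv_le_one_of_one_le₀ (by nlinarith)
  rw [e]
  refine norm_cfc_le (by linarith) fun t ht => ?_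
  have h1 := spectrum_star_mul_self_nonneg t ht
  rcases subsingleton_or_nontrivial A with hA | hA
  · rw [spectrum.of_subsingleton] at ht
    exact absurd ht (Set.notMem_empty t)
  have hone : NormOneClass A := ⟨CStarRing.norm_one⟩
  have h2 : t ≤ C ^ 2 := by
    have h3 := spectrum.norm_le_norm_of_mem ht
    rw [Real.norm_eq_abs, abs_of_nonneg h1, CStarRing.norm_star_mul_self] at h3
    nlinarith [norm_nonneg y]
  have h3 : (1 + C ^ 2)⁻¹ * (1 + t) ≤ 1 := by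
    rw [inv_mul_le_iff₀ hM]
    linarith
  have h4 : (1 + C ^ 2)⁻¹ ≤ (1 + C ^ 2)⁻¹ * (1 + t) := by
    have : 0 < (1 + C ^ 2)⁻¹ := by positivity
    nlinarith
  rw [Real.norm_eq_abs, abs_of_nonneg (by linarith)]
  linarith

theorem norm_pow_sg_le (y : A) {C : ℝ} (hC : ‖y‖ ≤ C) (N : ℕ) :
    ‖sg (1 + C ^ 2) y ^ N‖ ≤ (1 - (1 + C ^ 2)⁻¹) ^ N := by
  have h := norm_sg_le y hC
  have h0 : 0 ≤ 1 - (1 + C ^ 2)⁻¹ := (norm_nonneg _).trans h
  induction N with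
  | zero =>
    rw [pow_zero, pow_zero]
    rcases subsingleton_or_nontrivial A with h | h
    · rw [Subsingleton.elim (1 : A) 0, norm_zero]
      exact zero_le_one
    · exact (CStarRing.norm_one).le
  | succ k ih =>
    rw [pow_succ, pow_succ]
    exact (norm_mul_le _ _).trans (mul_le_mul ih h (norm_nonneg _) (pow_nonneg h0 _))

theorem rs_sub (y : A) {M : ℝ} (hM : M ≠ 0) (N : ℕ) :
    rs y - ((M : ℂ)⁻¹) • ∑ k ∈ Finset.range N, sg M y ^ k = rs y * sg M y ^ N := by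
  have hM' : (M : ℂ) ≠ 0 := Complex.ofReal_ne_zero.2 hM
  have h1 : (1 + star y * y) = (M : ℂ) • (1 - sg M y) := by
    unfold sg
    rw [sub_sub_cancel, smul_smul, mul_inv_cancel₀ hM', one_smul]
  have h2 : (1 - sg M y) * ∑ k ∈ Finset.range N, sg M y ^ k = 1 - sg M y ^ N :=
    mul_neg_geom_sum _ _
  have h3 : (1 + star y * y) * (((M : ℂ)⁻¹) • ∑ k ∈ Finset.range N, sg M y ^ k) =
      1 - sg M y ^ N := by
    rw [h1, smul_mul_smul_comm, mul_inv_cancel₀ hM', one_smul, h2]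
  have h4 : rs y * ((1 + star y * y) * (((M : ℂ)⁻¹) • ∑ k ∈ Finset.range N, sg M y ^ k)) =
      ((M : ℂ)⁻¹) • ∑ k ∈ Finset.range N, sg M y ^ k := by
    rw [← mul_assoc, rs_mul, one_mul]
  rw [h3] at h4
  rw [← h4, mul_sub, mul_one, sub_sub_cancel]

/-- The polynomial approximation of `hh y`. -/
theorem hh_approx (y : A) {C : ℝ} (hC : ‖y‖ ≤ C) (N : ℕ) :
    ‖hh y - (2 : ℂ) • (y * (((1 + C ^ 2 : ℝ) : ℂ)⁻¹ •
      ∑ k ∈ Finset.range N, sg (1 + C ^ 2) y ^ k))‖ ≤ 2 * C * (1 - (1 + C ^ 2)⁻¹) ^ N := by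
  have hC0 : 0 ≤ C := (norm_nonneg _).trans hC
  have hM : (1 + C ^ 2) ≠ 0 := by positivity
  have h1 := rs_sub y hM N
  have h2 := norm_pow_sg_le y hC N
  unfold hh
  rw [← smul_sub, ← mul_sub, h1, norm_smul]
  have h3 : ‖y * (rs y * sg (1 + C ^ 2) y ^ N)‖ ≤ C * (1 * (1 - (1 + C ^ 2)⁻¹) ^ N) := by
    refine (norm_mul_le _ _).trans (mul_le_mul hC ?_ (norm_nonneg _) hC0)
    exact (norm_mul_le _ _).trans (mul_le_mul (norm_rs_le y) h2 (norm_nonneg _) zero_le_one)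
  have h4 : ‖(2 : ℂ)‖ = 2 := by norm_num
  rw [h4]
  calc 2 * ‖y * (rs y * sg (1 + C ^ 2) y ^ N)‖ ≤ 2 * (C * (1 * (1 - (1 + C ^ 2)⁻¹) ^ N)) := by
        linarith
    _ = _ := by ring

/-- The same element in any *-algebra (here: the group algebra, with `g'` in the place of `g*`). -/
noncomputable def approxP {R : Type*} [Ring R] [Algebra ℂ R] (C : ℝ) (N : ℕ) (g g' : R) : R :=
  (2 : ℂ) • (g * (((1 + C ^ 2 : ℝ) : ℂ)⁻¹ •
      ∑ k ∈ Finset.range N, (1 - (((1 + C ^ 2 : ℝ) : ℂ)⁻¹) • (1 + g' * g)) ^ k))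

theorem map_approxP {R S : Type*} [Ring R] [Algebra ℂ R] [Ring S] [Algebra ℂ S] (χ : R →ₐ[ℂ] S)
    (C : ℝ) (N : ℕ) (g g' : R) : χ (approxP C N g g') = approxP C N (χ g) (χ g') := by
  unfold approxP
  simp only [map_smul, map_mul, map_sum, map_pow, map_sub, map_add, map_one]

theorem hh_approx' (y : A) {C : ℝ} (hC : ‖y‖ ≤ C) (N : ℕ) :
    ‖hh y - approxP C N y (star y)‖ ≤ 2 * C * (1 - (1 + C ^ 2)⁻¹) ^ N := hh_approx y hC N

end neumann

/-! ### The representation -/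

section ext

variable {G : Type*} [Group G] {A : ℕ → Type*} [∀ n, CStarAlgebra (A n)] [∀ n, TrAlg (A n)]
  (𝒰 : Ultrafilter ℕ) (ψ : G →* BF A)

/-- The extension of `ψ` to the group algebra. -/
noncomputable def PhB : MonoidAlgebra ℂ G →ₐ[ℂ] BF A := MonoidAlgebra.lift ℂ (BF A) G ψ

/-- The extension of `ψ` to the group algebra, at `n`. -/
noncomputable def PhN (n : ℕ) : MonoidAlgebra ℂ G →ₐ[ℂ] A n :=
  ((Pi.evalAlgHom ℂ A n).comp (BF A).subtype.toAlgHom).comp (PhB ψ)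

omit [∀ n, TrAlg (A n)] in
theorem PhN_apply (n : ℕ) (f : MonoidAlgebra ℂ G) : PhN ψ n f = (PhB ψ f : ∀ n, A n) n := rfl

/-- The extension of `ψ` to the group algebra, with values in the ultraproduct. -/
noncomputable def PhU : MonoidAlgebra ℂ G →ₐ[ℂ] TU A 𝒰 := (TU.mk A 𝒰).comp (PhB ψ)

theorem PhU_apply (f : MonoidAlgebra ℂ G) : PhU 𝒰 ψ f = TU.mk A 𝒰 (PhB ψ f) := rfl

omit [∀ n, TrAlg (A n)] in
theorem PhB_single (g : G) (z : ℂ) : PhB ψ (MonoidAlgebra.single g z) = z • ψ g := by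
  unfold PhB
  rw [MonoidAlgebra.lift_single]

theorem PhU_single (g : G) (z : ℂ) :
    PhU 𝒰 ψ (MonoidAlgebra.single g z) = z • TU.mk A 𝒰 (ψ g) := by
  rw [PhU_apply, PhB_single, map_smul]

variable {ψ} (hs : ∀ g, star (ψ g) = ψ g⁻¹)
include hs

omit [∀ n, TrAlg (A n)] in
/-- The adjoint in the group algebra. -/
theorem exists_adj (f : MonoidAlgebra ℂ G) : ∃ f' : MonoidAlgebra ℂ G,
    lamA G f' = star (lamA G f) ∧ PhB ψ f' = star (PhB ψ f) := by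
  induction f using MonoidAlgebra.induction_linear with
  | zero => exact ⟨0, by rw [map_zero, star_zero], by rw [map_zero, star_zero]⟩
  | add f g hf hg =>
    obtain ⟨f', hf', hf''⟩ := hf
    obtain ⟨g', hg', hg''⟩ := hg
    exact ⟨f' + g', by rw [map_add, map_add, star_add, hf', hg'],
      by rw [map_add, map_add, star_add, hf'', hg'']⟩
  | single g z =>
    exact ⟨MonoidAlgebra.single g⁻¹ (star z), by
      rw [lamA_single, lamA_single, star_smul, star_lamE], by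
      rw [PhB_single, PhB_single, star_smul, hs]⟩

omit hs in
theorem tr_PhU (hfree : ∀ g, g ≠ 1 →
    Tendsto (fun n => TrAlg.tau ((ψ g : ∀ n, A n) n)) 𝒰 (𝓝 0)) (f : MonoidAlgebra ℂ G) :
    TU.tr A 𝒰 (PhU 𝒰 ψ f) = f.coeff 1 := by
  classical
  induction f using MonoidAlgebra.induction_linear with
  | zero => rw [map_zero, TU.tr_zero]; rfl
  | add f g hf hg => rw [map_add, TU.tr_add, hf, hg]; rfl
  | single g z =>
    rw [PhU_single, TU.tr_smul, MonoidAlgebra.coeff_single, Finsupp.single_apply]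
    split_ifs with h
    · subst h
      rw [map_one]
      have h1 := TU.tendsto_tr A 𝒰 1
      have h2 : Tendsto (fun n => TrAlg.tau ((1 : ∀ n, A n) n)) 𝒰 (𝓝 1) := by
        refine tendsto_const_nhds.congr fun n => ?_
        exact (TrAlg.tau_one).symm
      rw [tendsto_nhds_unique h1 h2, mul_one]
    · have h1 := TU.tendsto_tr A 𝒰 (ψ g)
      rw [tendsto_nhds_unique h1 (hfree g h), mul_zero]

theorem nn_PhU (hfree : ∀ g, g ≠ 1 →
    Tendsto (fun n => TrAlg.tau ((ψ g : ∀ n, A n) n)) 𝒰 (𝓝 0)) (f : MonoidAlgebra ℂ G) :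
    TU.nn (PhU 𝒰 ψ f) = two (lamA G f) := by
  obtain ⟨f', h1, h2⟩ := exists_adj hs f
  unfold TU.nn two
  have h3 : star (PhU 𝒰 ψ f) = PhU 𝒰 ψ f' := by
    rw [PhU_apply, PhU_apply, h2, TU.star_mk]
  rw [h3, ← map_mul, tr_PhU 𝒰 hfree, ← h1, ← map_mul, tau_lamA]

omit hs in
/-- `y` represents `T`. -/
def Rep (ψ : G →* BF A) (T : LG G) (y : TU A 𝒰) : Prop :=
  ∀ ε : ℝ, 0 < ε → ∃ f : MonoidAlgebra ℂ G, two (T - lamA G f) < ε ∧ TU.nn (y - PhU 𝒰 ψ f) < ε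

variable {𝒰} (hfree : ∀ g, g ≠ 1 →
    Tendsto (fun n => TrAlg.tau ((ψ g : ∀ n, A n) n)) 𝒰 (𝓝 0))

include hfree in
theorem rep_unique {T : LG G} {y z : TU A 𝒰} (hy : Rep 𝒰 ψ T y) (hz : Rep 𝒰 ψ T z) : y = z := by
  refine TU.eq_of_nn (le_antisymm ?_ (TU.nn_nonneg _))
  refine le_of_forall_pos_le_add fun ε hε => ?_
  obtain ⟨f, hf1, hf2⟩ := hy (ε / 4) (by positivity)
  obtain ⟨g, hg1, hg2⟩ := hz (ε / 4) (by positivity)
  have h1 := TU.nn_sub_le_sub y (PhU 𝒰 ψ f) z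
  have h2 := TU.nn_sub_le_sub (PhU 𝒰 ψ f) (PhU 𝒰 ψ g) z
  have h3 : TU.nn (PhU 𝒰 ψ f - PhU 𝒰 ψ g) ≤ ε / 2 := by
    rw [← map_sub, nn_PhU 𝒰 hs hfree, map_sub]
    have h4 := two_sub_le_sub (lamA G f) T (lamA G g)
    rw [two_sub_comm (lamA G f) T] at h4
    linarith
  rw [TU.nn_sub_comm (PhU 𝒰 ψ g) z] at h2
  linarith

omit hs

theorem rep_add {T S : LG G} {y z : TU A 𝒰} (hy : Rep 𝒰 ψ T y) (hz : Rep 𝒰 ψ S z) :
    Rep 𝒰 ψ (T + S) (y + z) := by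
  intro ε hε
  obtain ⟨f, hf1, hf2⟩ := hy (ε / 2) (by positivity)
  obtain ⟨g, hg1, hg2⟩ := hz (ε / 2) (by positivity)
  refine ⟨f + g, ?_, ?_⟩
  · rw [map_add, add_sub_add_comm]
    have := two_add_le (T - lamA G f) (S - lamA G g)
    linarith
  · rw [map_add, add_sub_add_comm]
    have := TU.nn_add_le (y - PhU 𝒰 ψ f) (z - PhU 𝒰 ψ g)
    linarith

theorem rep_smul {T : LG G} {y : TU A 𝒰} (c : ℂ) (hy : Rep 𝒰 ψ T y) :
    Rep 𝒰 ψ (c • T) (c • y) := by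
  intro ε hε
  have hc : 0 < ‖c‖ + 1 := by positivity
  obtain ⟨f, hf1, hf2⟩ := hy (ε / (‖c‖ + 1)) (by positivity)
  have hb : ∀ r : ℝ, 0 ≤ r → r < ε / (‖c‖ + 1) → ‖c‖ * r < ε := by
    intro r hr0 hr
    rw [lt_div_iff₀ hc] at hr
    nlinarith
  refine ⟨c • f, ?_, ?_⟩
  · rw [map_smul, ← smul_sub, two_smul']
    exact hb _ (two_nonneg _) hf1
  · rw [map_smul, ← smul_sub, TU.nn_smul]
    exact hb _ (TU.nn_nonneg _) hf2

theorem rep_lamA (f : MonoidAlgebra ℂ G) : Rep 𝒰 ψ (lamA G f) (PhU 𝒰 ψ f) := by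
  intro ε hε
  exact ⟨f, by rwa [sub_self, two_zero], by rwa [sub_self, TU.nn_zero]⟩

theorem rep_mul {T S : LG G} {y z : TU A 𝒰} (hy : Rep 𝒰 ψ T y) (hz : Rep 𝒰 ψ S z) :
    Rep 𝒰 ψ (T * S) (y * z) := by
  intro ε hε
  obtain ⟨C, hC, -, hC2⟩ := TU.exists_bound z
  obtain ⟨f, hf1, hf2⟩ := hy (ε / (2 * (C + ‖S‖))) (by positivity)
  obtain ⟨D, hD, hD1, -⟩ := TU.exists_bound (PhU 𝒰 ψ f)
  obtain ⟨g, hg1, hg2⟩ := hz (ε / (2 * (D + ‖lamA G f‖))) (by positivity)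
  have hb : ∀ r a b : ℝ, 0 ≤ r → 0 < a → 0 ≤ b → r < ε / (2 * (a + b)) →
      a * r < ε / 2 ∧ r * b < ε / 2 := by
    intro r a b hr ha hb hr2
    rw [lt_div_iff₀ (by positivity)] at hr2
    constructor
    · nlinarith [mul_nonneg hr hb]
    · nlinarith [mul_nonneg hr ha.le]
  refine ⟨f * g, ?_, ?_⟩
  · have e : T * S - lamA G (f * g) = (T - lamA G f) * S +
        lamA G f * (S - lamA G g) := by
      rw [map_mul]
      noncomm_ring
    rw [e]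
    have h1 := two_add_le ((T - lamA G f) * S)
      (lamA G f * (S - lamA G g))
    have h2 := two_mul_le' (T - lamA G f) S
    have h3 := two_mul_le (lamA G f) (S - lamA G g)
    have h4 := (hb _ _ _ (two_nonneg _) hC (norm_nonneg _) hf1).2
    have h5 := (hb _ _ _ (two_nonneg _) hD (norm_nonneg _) hg1).2
    linarith
  · have e : y * z - PhU 𝒰 ψ (f * g) = (y - PhU 𝒰 ψ f) * z +
        PhU 𝒰 ψ f * (z - PhU 𝒰 ψ g) := by
      rw [map_mul]
      noncomm_ring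
    rw [e]
    have h1 := TU.nn_add_le ((y - PhU 𝒰 ψ f) * z) (PhU 𝒰 ψ f * (z - PhU 𝒰 ψ g))
    have h2 := hC2 (y - PhU 𝒰 ψ f)
    have h3 := hD1 (z - PhU 𝒰 ψ g)
    have h4 := (hb _ _ _ (TU.nn_nonneg _) hC (norm_nonneg S) hf2).1
    have h5 := (hb _ _ _ (TU.nn_nonneg _) hD (norm_nonneg (lamA G f)) hg2).1
    linarith

include hs in
theorem rep_star {T : LG G} {y : TU A 𝒰} (hy : Rep 𝒰 ψ T y) :
    Rep 𝒰 ψ (star T) (star y) := by
  intro ε hε
  obtain ⟨f, hf1, hf2⟩ := hy ε hε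
  obtain ⟨f', h1, h2⟩ := exists_adj hs f
  refine ⟨f', ?_, ?_⟩
  · rw [h1, ← star_sub, two_star]
    exact hf1
  · have h3 : PhU 𝒰 ψ f' = star (PhU 𝒰 ψ f) := by
      rw [PhU_apply, PhU_apply, h2, TU.star_mk]
    rw [h3, ← star_sub, TU.nn_star]
    exact hf2

include hfree in
theorem rep_tr {T : LG G} {y : TU A 𝒰} (hy : Rep 𝒰 ψ T y) : TU.tr A 𝒰 y = TrAlg.tau T := by
  rw [← sub_eq_zero, ← norm_eq_zero]
  refine le_antisymm ?_ (norm_nonneg _)
  refine le_of_forall_pos_le_add fun ε hε => ?_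
  obtain ⟨f, hf1, hf2⟩ := hy (ε / 2) (by positivity)
  have h1 := TU.norm_tr_le (y - PhU 𝒰 ψ f)
  have h2 := norm_tau_le (T - lamA G f)
  rw [TU.tr_sub, tr_PhU 𝒰 hfree] at h1
  rw [map_sub, tau_lamA] at h2
  have e : TU.tr A 𝒰 y - TrAlg.tau T = (TU.tr A 𝒰 y - f.coeff 1) -
      (TrAlg.tau T - f.coeff 1) := by ring
  rw [e]
  have h3 := norm_sub_le (TU.tr A 𝒰 y - f.coeff 1) (TrAlg.tau T - f.coeff 1)
  linarith

end ext

end Pool.Agent.OGP
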