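import Pool.Agent.OGP.OB.Iface
import Pool.Agent.OGP.Nopoly
import Pool.Agent.OGP.Exside
import Pool.Agent.OGP.Equi

/-!
# OGP FINAL: no trace preserving homomorphism of the matrix ultraproduct to an ultrapower of
`L(F_2)` sends a random pair of unitaries to the generators

Fix `p, k` beyond all thresholds of `ex_side` and `no_poly`.  For almost every `ω` take `W` from
`ex_side`.  Given `θ`, take `R` from `iface`, `δ` from `no_poly` for `R`, Laurent polynomials `q`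
with `EquiP k q δ` from `equi`, `ε` from `no_poly`.  `ex_side` bounds the commutators by `2 δ`, so
`iface` with `ε` and `εc = 2 δ` gives an element of the group algebra excluded by `no_poly`.
-/

open Matrix MeasureTheory Filter

universe u v

namespace Pool.Agent.OGP

theorem no_theta {Ω : Type v} [MeasurableSpace Ω] (P : Measure Ω) [IsProbabilityMeasure P]
    (U V : ∀ n : ℕ, Ω → UG (Fin (n + 1))) (hU : ∀ n, Measurable (U n))
    (hV : ∀ n, Measurable (V n))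
    (hlaw : ∀ n, P.map (fun ω => (U n ω, V n ω)) =
      (haarU (Fin (n + 1))).prod (haarU (Fin (n + 1)))) :
    ∀ᵐ ω ∂P, ∀ 𝒰 : Ultrafilter ℕ, (𝒰 : Filter ℕ) ≤ atTop →
      ∀ (I : Type u) (𝒱 : Ultrafilter I) (θ : MU 𝒰 →⋆ₐ[ℂ] LU 𝒱),
        (∀ x, TU.tr _ 𝒱 (θ x) = MU.tr x) →
        θ (MU.cls 𝒰 fun n => U n ω) = diag 𝒱 LF2 la →
        θ (MU.cls 𝒰 fun n => V n ω) = diag 𝒱 LF2 lb → False := by
  obtain ⟨p₁, hp₁⟩ := ex_side
  obtain ⟨p₂, hp₂⟩ := no_poly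
  obtain ⟨k₁, hk₁⟩ := hp₁ (max p₁ p₂) (le_max_left _ _)
  obtain ⟨k₂, hk₂⟩ := hp₂ (max p₁ p₂) (le_max_right _ _)
  set p := max p₁ p₂ with hp
  set k := max (max k₁ k₂) 1 with hk
  have h1 := hk₁ k ((le_max_left _ _).trans (le_max_left _ _)) P U V hU hV hlaw
  have h2 := hk₂ k ((le_max_right _ _).trans (le_max_left _ _))
  filter_upwards [h1] with ω hω 𝒰 h𝒰 I 𝒱 θ htr hθU hθV
  obtain ⟨W, hW1, hW2⟩ := hω
  obtain ⟨R, hR, h3⟩ := iface p _ 𝒰 (fun n => U n ω) (fun n => V n ω) W 𝒱 θ htr hθU hθV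
    (h𝒰 hW1)
  obtain ⟨δ, hδ, h4⟩ := h2 R hR
  obtain ⟨q, hq⟩ := equi (k := k) (le_max_right _ _) hδ
  obtain ⟨ε, hε, h5⟩ := h4 q hq
  obtain ⟨f, hf1, hf2, hf3, hf4⟩ := h3 ε hε (2 * δ) (by positivity) k q
    (fun i => h𝒰 (hW2 q δ hq i))
  refine h5 ⟨f, hf1, hf2, fun i => ?_, hf4⟩
  have h6 := hf3 i
  have h7 : 2 * (2 * δ) = 4 * δ := by ring
  rwa [h7] at h6

end Pool.Agent.OGP
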