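import Pool.Agent.OGP.OB.Kap
import Pool.Agent.OGP.OB.Stmt

/-!
# OGP, operator algebra part: the interface with the matrix part
-/

open Filter Topology Matrix

universe u

namespace Pool.Agent.OGP

section
open scoped Matrix.Norms.L2Operator

/-- The class of a sequence of unitary matrices, as a homomorphism. -/
noncomputable def MU.clsHom (𝒰 : Ultrafilter ℕ) : (∀ n : ℕ, UG (Fin (n + 1))) →* MU 𝒰 where
  toFun := MU.cls 𝒰
  map_one' := by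
    change MU.mk 𝒰 (MU.bf 1) = 1
    rw [← map_one (MU.mk 𝒰)]
    rfl
  map_mul' U V := by
    change MU.mk 𝒰 (MU.bf (U * V)) = MU.mk 𝒰 (MU.bf U) * MU.mk 𝒰 (MU.bf V)
    rw [← map_mul]
    rfl

theorem MU.star_cls (𝒰 : Ultrafilter ℕ) (U : ∀ n : ℕ, UG (Fin (n + 1))) :
    star (MU.cls 𝒰 U) = MU.cls 𝒰 U⁻¹ := rfl

theorem MU.star_cls_mul (𝒰 : Ultrafilter ℕ) (U : ∀ n : ℕ, UG (Fin (n + 1))) :
    star (MU.cls 𝒰 U) * MU.cls 𝒰 U = 1 := by
  rw [MU.star_cls]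
  change MU.clsHom 𝒰 U⁻¹ * MU.clsHom 𝒰 U = 1
  rw [← map_mul, inv_mul_cancel, map_one]

/-- A Laurent polynomial of a sequence of unitary matrices. -/
noncomputable def MU.bfl (c : ℤ →₀ ℂ) (U : ∀ n : ℕ, UG (Fin (n + 1))) :
    BF (fun n : ℕ => Matrix (Fin (n + 1)) (Fin (n + 1)) ℂ) :=
  c.sum fun m z => z • MU.bf (U ^ m)

theorem MU.bfl_apply (c : ℤ →₀ ℂ) (U : ∀ n : ℕ, UG (Fin (n + 1))) (n : ℕ) :
    (MU.bfl c U : ∀ n : ℕ, Matrix (Fin (n + 1)) (Fin (n + 1)) ℂ) n = lauM c (U n) := by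
  unfold MU.bfl lauM Finsupp.sum
  rw [AddSubmonoidClass.coe_finsetSum, Finset.sum_apply]
  rfl

theorem MU.comm_apply (c : ℤ →₀ ℂ) (U W : ∀ n : ℕ, UG (Fin (n + 1))) (n : ℕ) :
    ((MU.bf W * MU.bfl c U - MU.bfl c U * MU.bf W : BF (fun n : ℕ =>
      Matrix (Fin (n + 1)) (Fin (n + 1)) ℂ)) : ∀ n : ℕ, Matrix (Fin (n + 1)) (Fin (n + 1)) ℂ) n =
      (W n : Matrix _ _ ℂ) * lauM c (U n) - lauM c (U n) * (W n : Matrix _ _ ℂ) := by
  rw [← MU.bfl_apply]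
  rfl

theorem MU.mk_bfl (𝒰 : Ultrafilter ℕ) (c : ℤ →₀ ℂ) (U : ∀ n : ℕ, UG (Fin (n + 1))) :
    MU.mk 𝒰 (MU.bfl c U) = c.sum fun m z => z • MU.clsHom 𝒰 (U ^ m) := by
  unfold MU.bfl
  rw [map_finsuppSum]
  refine Finsupp.sum_congr fun m _ => ?_
  rw [map_smul]
  rfl

theorem MU.tendsto_n2 (𝒰 : Ultrafilter ℕ)
    (x : BF (fun n : ℕ => Matrix (Fin (n + 1)) (Fin (n + 1)) ℂ)) :
    Tendsto (fun n => n2 ((x : ∀ n : ℕ, Matrix (Fin (n + 1)) (Fin (n + 1)) ℂ) n) ^ 2) 𝒰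
      (𝓝 (MU.tr (star (MU.mk 𝒰 x) * MU.mk 𝒰 x)).re) := by
  have h := TU.tendsto_two _ 𝒰 x
  refine h.congr fun n => ?_
  rw [two_eq_n2]

end

/-- The powers of `[U]` are mapped to the powers of `a`. -/
theorem theta_zpow {𝒰 : Ultrafilter ℕ} {U : ∀ n : ℕ, UG (Fin (n + 1))}
    {I : Type u} {𝒱 : Ultrafilter I} (θ : MU 𝒰 →⋆ₐ[ℂ] LU 𝒱)
    (hU : θ (MU.cls 𝒰 U) = diag 𝒱 LF2 la) (m : ℤ) :
    θ (MU.clsHom 𝒰 (U ^ m)) = diag 𝒱 LF2 (lamE (FreeGroup (Fin 2)) (FreeGroup.of 0 ^ m)) := by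
  let f1 : Multiplicative ℤ →* LU 𝒱 :=
    (((θ : MU 𝒰 →⋆ₐ[ℂ] LU 𝒱) : MU 𝒰 →* LU 𝒱).comp (MU.clsHom 𝒰)).comp (zpowersHom _ U)
  let f2 : Multiplicative ℤ →* LU 𝒱 :=
    (((diag 𝒱 LF2 : LF2 →⋆ₐ[ℂ] LU 𝒱) : LF2 →* LU 𝒱).comp (lamE (FreeGroup (Fin 2)))).comp
      (zpowersHom _ (FreeGroup.of 0))
  have h : f1 = f2 := by
    refine MonoidHom.ext_mint ?_
    change θ (MU.clsHom 𝒰 (U ^ (1 : ℤ))) = diag 𝒱 LF2 (lamE (FreeGroup (Fin 2))
      (FreeGroup.of 0 ^ (1 : ℤ)))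
    rw [zpow_one, zpow_one]
    exact hU
  exact congrArg (fun f : Multiplicative ℤ →* LU 𝒱 => f (Multiplicative.ofAdd m)) h

theorem theta_bfl {𝒰 : Ultrafilter ℕ} {U : ∀ n : ℕ, UG (Fin (n + 1))}
    {I : Type u} {𝒱 : Ultrafilter I} (θ : MU 𝒰 →⋆ₐ[ℂ] LU 𝒱)
    (hU : θ (MU.cls 𝒰 U) = diag 𝒱 LF2 la) (c : ℤ →₀ ℂ) :
    θ (MU.mk 𝒰 (MU.bfl c U)) = diag 𝒱 LF2 (lamF (lau c)) := by
  rw [MU.mk_bfl, lamF_lau, map_finsuppSum, map_finsuppSum]
  refine Finsupp.sum_congr fun m _ => ?_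
  rw [map_smul, map_smul, theta_zpow θ hU]

theorem two_pow_sub_le {A : Type*} [CStarAlgebra A] [TrAlg A] {x y : A} {R : ℝ} (hR : 1 ≤ R) (hx : ‖x‖ ≤ R) (hy : ‖y‖ ≤ R)
    (p : ℕ) : two (x ^ p - y ^ p) ≤ p * R ^ p * two (x - y) := by
  have h0 := two_nonneg (x - y)
  have hxp : ∀ k : ℕ, ‖x ^ k‖ ≤ R ^ k := by
    intro k
    induction k with
    | zero =>
      rw [pow_zero, pow_zero]
      rcases subsingleton_or_nontrivial A with h | h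
      · rw [Subsingleton.elim (1 : A) 0, norm_zero]
        exact zero_le_one
      · exact (CStarRing.norm_one).le
    | succ k ih =>
      rw [pow_succ, pow_succ]
      exact (norm_mul_le _ _).trans (mul_le_mul ih hx (norm_nonneg _) (by positivity))
  induction p with
  | zero => simp [two_zero]
  | succ p ih =>
    have e : x ^ (p + 1) - y ^ (p + 1) = x ^ p * (x - y) + (x ^ p - y ^ p) * y := by
      rw [pow_succ, pow_succ]
      noncomm_ring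
    rw [e]
    have h1 := two_mul_le (x ^ p) (x - y)
    have h2 := two_mul_le' (x ^ p - y ^ p) y
    have h3 := hxp p
    have h4 : ‖x ^ p‖ * two (x - y) ≤ R ^ p * two (x - y) := mul_le_mul_of_nonneg_right h3 h0
    have h5 : two (x ^ p - y ^ p) * ‖y‖ ≤ p * R ^ p * two (x - y) * R :=
      mul_le_mul ih hy (norm_nonneg _) (by positivity)
    have h6 : R ^ p * two (x - y) ≤ R ^ (p + 1) * two (x - y) :=
      mul_le_mul_of_nonneg_right (pow_le_pow_right₀ hR (Nat.le_succ p)) h0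
    refine (two_add_le _ _).trans ?_
    push_cast
    calc _ ≤ R ^ (p + 1) * two (x - y) + p * R ^ p * two (x - y) * R := by linarith
      _ = _ := by ring

theorem norm_pow_le_of_le {A : Type*} [NormedRing A] [StarRing A] [CStarRing A] {x : A} {R : ℝ}
    (hR : 0 ≤ R) (hx : ‖x‖ ≤ R) (k : ℕ) : ‖x ^ k‖ ≤ R ^ k := by
  induction k with
  | zero =>
    rw [pow_zero, pow_zero]
    rcases subsingleton_or_nontrivial A with h | h
    · rw [Subsingleton.elim (1 : A) 0, norm_zero]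
      exact zero_le_one
    · exact (CStarRing.norm_one).le
  | succ k ih =>
    rw [pow_succ, pow_succ]
    exact (norm_mul_le _ _).trans (mul_le_mul ih hx (norm_nonneg _) (by positivity))

theorem hom_comm {R S F : Type*} [Ring R] [Ring S] [FunLike F R S] [RingHomClass F R S] (f : F)
    (x y : R) : f (x * y - y * x) = f x * f y - f y * f x := by
  rw [map_sub, map_mul, map_mul]

theorem hom_mul_pow {R S F : Type*} [Ring R] [Ring S] [FunLike F R S] [RingHomClass F R S] (f : F)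
    (x y : R) (p : ℕ) : f ((x * y) ^ p) = (f x * f y) ^ p := by
  rw [map_pow, map_mul]

section pick
open scoped Matrix.Norms.L2Operator

/-- Elements of the target algebra with the properties of `[W]`. -/
theorem pick {B : Type*} [CStarAlgebra B] [TrAlg B] (p : ℕ) (E : ℝ) (𝒰 : Ultrafilter ℕ)
    (U V W : ∀ n : ℕ, UG (Fin (n + 1))) {I : Type u} (𝒱 : Ultrafilter I)
    (θ : MU 𝒰 →⋆ₐ[ℂ] TU (fun _ : I => B) 𝒱) (htr : ∀ x, TU.tr _ 𝒱 (θ x) = MU.tr x)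
    (q : (ℤ →₀ ℂ) → B) (hU : ∀ c, θ (MU.mk 𝒰 (MU.bfl c U)) = diag 𝒱 B (q c))
    (β : B) (hV : θ (MU.cls 𝒰 V) = diag 𝒱 B β)
    (hE : ∀ᶠ n in 𝒰, E ≤ (utr ((V n * W n) ^ p)).re) :
    ∃ R₀ : ℝ, 1 ≤ R₀ ∧ ∀ ε : ℝ, 0 < ε → ∀ ε' : ℝ, 0 < ε' → ∀ 𝒬 : Finset (ℤ →₀ ℂ),
      (∀ c ∈ 𝒬, ∀ᶠ n in 𝒰, n2 ((W n : Matrix _ _ ℂ) * lauM c (U n) -
        lauM c (U n) * (W n : Matrix _ _ ℂ)) ≤ ε') →
      ∃ x : B, ‖x‖ ≤ R₀ ∧ two (star x * x - 1) < ε / 2 ∧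
        (∀ c ∈ 𝒬, two (x * q c - q c * x) ^ 2 < (3 * ε' / 2) ^ 2) ∧
        E - ε / 2 < (TrAlg.tau ((β * x) ^ p)).re := by
  obtain ⟨w, hw⟩ := TU.mk_surjective (fun _ : I => B) 𝒱 (θ (MU.cls 𝒰 W))
  obtain ⟨C, hC⟩ := w.2
  refine ⟨max 1 C, le_max_left _ _, fun ε hε ε' hε' 𝒬 hQ => ?_⟩
  have hwR₀ : ∀ i, ‖(w : I → B) i‖ ≤ max 1 C := fun i => (hC i).trans (le_max_right _ _)
  -- unitarity
  have e1 : ∀ᶠ i in (𝒱 : Filter I), two (star ((w : I → B) i) * (w : I → B) i - 1) < ε / 2 := by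
    have h1 : TU.mk (fun _ : I => B) 𝒱 (star w * w) = TU.mk (fun _ : I => B) 𝒱 1 := by
      rw [map_mul, ← TU.star_mk, hw, ← map_star, ← map_mul, MU.star_cls_mul, map_one, map_one]
    have h2 := (TU.mk_eq_iff (fun _ : I => B) 𝒱).1 h1
    have h3 : Tendsto (fun i => two (star ((w : I → B) i) * (w : I → B) i - 1)) 𝒱 (𝓝 0) := h2
    exact h3.eventually_lt_const (by positivity)
  -- commutation
  have e2 : ∀ᶠ i in (𝒱 : Filter I), ∀ c ∈ 𝒬, two ((w : I → B) i * q c -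
      q c * (w : I → B) i) ^ 2 < (3 * ε' / 2) ^ 2 := by
    refine (Filter.eventually_all_finset 𝒬).2 fun c hc => ?_
    set y : BF (fun n : ℕ => Matrix (Fin (n + 1)) (Fin (n + 1)) ℂ) :=
      MU.bf W * MU.bfl c U - MU.bfl c U * MU.bf W with hy
    set d : BF (fun _ : I => B) := ⟨fun _ => q c, ‖q c‖, fun _ => le_rfl⟩ with hd
    have hdd : diag 𝒱 B (q c) = TU.mk (fun _ : I => B) 𝒱 d := rfl
    have hWW : θ (MU.mk 𝒰 (MU.bf W)) = TU.mk (fun _ : I => B) 𝒱 w := hw.symm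
    have h1 : θ (MU.mk 𝒰 y) = TU.mk (fun _ : I => B) 𝒱 (w * d - d * w) := by
      have a1 := hom_comm (MU.mk 𝒰) (MU.bf W) (MU.bfl c U)
      have a2 := hom_comm θ (MU.mk 𝒰 (MU.bf W)) (MU.mk 𝒰 (MU.bfl c U))
      have a3 := hom_comm (TU.mk (fun _ : I => B) 𝒱) w d
      rw [hWW, hU, hdd, ← a3, ← a1] at a2
      exact a2
    have h2 := TU.tendsto_two (fun _ : I => B) 𝒱 (w * d - d * w)
    rw [← h1, ← map_star, ← map_mul, htr] at h2
    have h3 := MU.tendsto_n2 𝒰 y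
    have h4 : (MU.tr (star (MU.mk 𝒰 y) * MU.mk 𝒰 y)).re ≤ ε' ^ 2 := by
      refine le_of_tendsto h3 ?_
      filter_upwards [hQ c hc] with n hn
      refine pow_le_pow_left₀ (Real.sqrt_nonneg _) ?_ 2
      rw [hy, MU.comm_apply]
      exact hn
    have h5 : (MU.tr (star (MU.mk 𝒰 y) * MU.mk 𝒰 y)).re < (3 * ε' / 2) ^ 2 := by
      have : 0 < ε' ^ 2 := by positivity
      linarith [show (3 * ε' / 2) ^ 2 = 9 / 4 * ε' ^ 2 by ring]
    exact h2.eventually_lt_const h5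
  -- the moment
  have e3 : ∀ᶠ i in (𝒱 : Filter I), E - ε / 2 < (TrAlg.tau ((β * (w : I → B) i) ^ p)).re := by
    set d : BF (fun _ : I => B) := ⟨fun _ => β, ‖β‖, fun _ => le_rfl⟩ with hd
    have hVV : θ (MU.mk 𝒰 (MU.bf V)) = TU.mk (fun _ : I => B) 𝒱 d := hV
    have hWW : θ (MU.mk 𝒰 (MU.bf W)) = TU.mk (fun _ : I => B) 𝒱 w := hw.symm
    have h1 : θ (MU.mk 𝒰 ((MU.bf V * MU.bf W) ^ p)) =
        TU.mk (fun _ : I => B) 𝒱 ((d * w) ^ p) := by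
      have a1 := hom_mul_pow (MU.mk 𝒰) (MU.bf V) (MU.bf W) p
      have a2 := hom_mul_pow θ (MU.mk 𝒰 (MU.bf V)) (MU.mk 𝒰 (MU.bf W)) p
      have a3 := hom_mul_pow (TU.mk (fun _ : I => B) 𝒱) d w p
      rw [hVV, hWW, ← a3, ← a1] at a2
      exact a2
    have h2 := TU.tendsto_tr (fun _ : I => B) 𝒱 ((d * w) ^ p)
    rw [← h1, htr] at h2
    have h3 := MU.tendsto_tr 𝒰 ((MU.bf V * MU.bf W) ^ p)
    have h4 : E ≤ (MU.tr (MU.mk 𝒰 ((MU.bf V * MU.bf W) ^ p))).re := by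
      refine ge_of_tendsto ((Complex.continuous_re.tendsto _).comp h3) ?_
      filter_upwards [hE] with n hn
      exact hn
    have h5 := (Complex.continuous_re.tendsto _).comp h2
    have h6 : E - ε / 2 < (MU.tr (MU.mk 𝒰 ((MU.bf V * MU.bf W) ^ p))).re := by linarith
    exact h5.eventually_const_lt h6
  obtain ⟨i, hi1, hi2, hi3⟩ := (e1.and (e2.and e3)).exists
  exact ⟨(w : I → B) i, hwR₀ i, hi1, hi2, hi3⟩

end pick

section est
variable {B : Type*} [CStarAlgebra B] [TrAlg B]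

theorem est1 {x F : B} {R δ : ℝ} (hF : ‖F‖ ≤ R) (hx : ‖x‖ ≤ R) (hd : two (x - F) ≤ δ) :
    two (star F * F - 1) ≤ two (star x * x - 1) + 2 * (R * δ) := by
  have hR : 0 ≤ R := (norm_nonneg _).trans hF
  have hδ : 0 ≤ δ := (two_nonneg _).trans hd
  have e : star F * F - 1 = (star x * x - 1) + (star F * (F - x) + star (F - x) * x) := by
    rw [star_sub]
    noncomm_ring
  rw [e]
  have h1 := two_mul_le (star F) (F - x)
  have h2 := two_mul_le' (star (F - x)) x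
  rw [norm_star] at h1
  rw [two_star] at h2
  rw [two_sub_comm F x] at h1 h2
  have h3 : ‖F‖ * two (x - F) ≤ R * δ := mul_le_mul hF hd (two_nonneg _) hR
  have h4 : two (x - F) * ‖x‖ ≤ δ * R := mul_le_mul hd hx (norm_nonneg _) hδ
  have h5 := two_add_le (star x * x - 1) (star F * (F - x) + star (F - x) * x)
  have h6 := two_add_le (star F * (F - x)) (star (F - x) * x)
  linarith

theorem est2 {x F q : B} {K δ : ℝ} (hq : ‖q‖ ≤ K) (hd : two (x - F) ≤ δ) :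
    two (F * q - q * F) ≤ two (x * q - q * x) + 2 * (K * δ) := by
  have hδ : 0 ≤ δ := (two_nonneg _).trans hd
  have e : F * q - q * F = (x * q - q * x) + ((F - x) * q - q * (F - x)) := by
    noncomm_ring
  rw [e]
  have h1 := two_mul_le' (F - x) q
  have h2 := two_mul_le q (F - x)
  rw [two_sub_comm F x] at h1 h2
  have h3 : two (x - F) * ‖q‖ ≤ δ * K := mul_le_mul hd hq (norm_nonneg _) hδ
  have h4 := two_add_le (x * q - q * x) ((F - x) * q - q * (F - x))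
  have h5 := two_sub_le ((F - x) * q) (q * (F - x))
  linarith

omit [TrAlg B] in
theorem norm_mul_le_of_le {x β : B} {R : ℝ} (hβ : ‖β‖ ≤ 1) (hx : ‖x‖ ≤ R) : ‖β * x‖ ≤ R := by
  refine (norm_mul_le _ _).trans ?_
  nlinarith [norm_nonneg x, norm_nonneg β]

theorem est3 {x F β : B} {R δ : ℝ} (hR : 1 ≤ R) (hF : ‖F‖ ≤ R) (hx : ‖x‖ ≤ R) (hβ : ‖β‖ ≤ 1)
    (hd : two (x - F) ≤ δ) (p : ℕ) :
    (TrAlg.tau ((β * x) ^ p)).re - p * R ^ p * δ ≤ (TrAlg.tau ((β * F) ^ p)).re := by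
  have h1 := two_pow_sub_le hR (norm_mul_le_of_le hβ hF) (norm_mul_le_of_le hβ hx) p
  have h2 := norm_tau_le ((β * F) ^ p - (β * x) ^ p)
  have h3 := Complex.abs_re_le_norm (TrAlg.tau ((β * F) ^ p - (β * x) ^ p))
  rw [map_sub, Complex.sub_re] at h3
  rw [map_sub] at h2
  have h4 := (abs_le.1 (h3.trans (h2.trans h1))).1
  have e : β * F - β * x = β * (F - x) := by rw [mul_sub]
  have h5 : two (β * F - β * x) ≤ δ := by
    rw [e]
    refine (two_mul_le _ _).trans ?_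
    rw [two_sub_comm]
    nlinarith [two_nonneg (x - F), norm_nonneg β]
  have h6 : p * R ^ p * two (β * F - β * x) ≤ p * R ^ p * δ :=
    mul_le_mul_of_nonneg_left h5 (by positivity)
  linarith

theorem est4 {F β : B} {R : ℝ} (hF : ‖F‖ ≤ R) (hβ : ‖β‖ ≤ 1) (j : ℕ) :
    two ((β * F) ^ j) ^ 2 ≤ R ^ (2 * j) := by
  rw [mul_comm 2 j, pow_mul]
  refine pow_le_pow_left₀ (two_nonneg _) ?_ 2
  exact (two_le_norm _).trans (norm_pow_le_of_le ((norm_nonneg _).trans hF)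
    (norm_mul_le_of_le hβ hF) j)

end est

/-- The interface with the matrix part. -/
theorem iface (p : ℕ) (E : ℝ) (𝒰 : Ultrafilter ℕ) (U V W : ∀ n : ℕ, UG (Fin (n + 1)))
    {I : Type u} (𝒱 : Ultrafilter I) (θ : MU 𝒰 →⋆ₐ[ℂ] LU 𝒱)
    (htr : ∀ x, TU.tr _ 𝒱 (θ x) = MU.tr x)
    (hU : θ (MU.cls 𝒰 U) = diag 𝒱 LF2 la) (hV : θ (MU.cls 𝒰 V) = diag 𝒱 LF2 lb)
    (hE : ∀ᶠ n in 𝒰, E ≤ (utr ((V n * W n) ^ p)).re) :
    ∃ R : ℝ, 1 ≤ R ∧ ∀ ε : ℝ, 0 < ε → ∀ εc : ℝ, 0 < εc → ∀ (k : ℕ) (q : Fin k → (ℤ →₀ ℂ)),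
      (∀ i, ∀ᶠ n in 𝒰, n2 ((W n : Matrix _ _ ℂ) * lauM (q i) (U n) -
        lauM (q i) (U n) * (W n : Matrix _ _ ℂ)) ≤ εc) →
      ∃ f : CF, (∀ j ≤ p, msq ((gb * f) ^ j) ≤ R ^ (2 * j)) ∧ msq (mst f * f - 1) ≤ ε ^ 2 ∧
        (∀ i, msq (f * lau (q i) - lau (q i) * f) ≤ (2 * εc) ^ 2) ∧
        E - ε ≤ (((gb * f) ^ p).coeff 1).re := by
  obtain ⟨R₀, hR₀1, hpick⟩ := pick p E 𝒰 U V W 𝒱 θ htr (fun c => lamF (lau c))
    (fun c => theta_bfl θ hU c) lb hV hE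
  set R : ℝ := 4 * R₀ with hR
  have hR1 : 1 ≤ R := by linarith
  refine ⟨R, hR1, fun ε hε εc hεc k q hQ => ?_⟩
  obtain ⟨x, hxR₀, hi1, hi2, hi3⟩ := hpick ε hε εc hεc (Finset.univ.image q) (fun c hc => by
    obtain ⟨i, -, rfl⟩ := Finset.mem_image.1 hc
    exact hQ i)
  have hxR : ‖x‖ ≤ R := by linarith
  set K : ℝ := ∑ i, ‖lamF (lau (q i))‖ with hK
  have hK0 : 0 ≤ K := Finset.sum_nonneg fun c _ => norm_nonneg _
  have hS : 0 < R + K + (p + 1) * R ^ p := by positivity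
  set δ : ℝ := min ε εc / (4 * (R + K + (p + 1) * R ^ p)) with hδ
  have hm : 0 < min ε εc := lt_min hε hεc
  have hδ0 : 0 < δ := by rw [hδ]; positivity
  have hδ1 : (R + K + (p + 1) * R ^ p) * δ = min ε εc / 4 := by
    rw [hδ]
    field_simp
  have hm1 : min ε εc ≤ ε := min_le_left _ _
  have hm2 : min ε εc ≤ εc := min_le_right _ _
  obtain ⟨f, hf1, hf2⟩ := kaplansky (FreeGroup (Fin 2)) x (by linarith : 0 < R₀) hxR₀ hδ0
  have hFR : ‖lamF f‖ ≤ R := hf1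
  have hlb : ‖lb‖ ≤ 1 := norm_lamE_le _ _
  have hRp : 0 < R ^ p := by positivity
  have hd1 : R * δ ≤ ε / 4 := by
    have h1 : 0 ≤ (K + (p + 1) * R ^ p) * δ := by positivity
    linarith
  have hd2 : K * δ ≤ εc / 4 := by
    have h1 : 0 ≤ (R + (p + 1) * R ^ p) * δ := by positivity
    linarith
  have hd3 : p * R ^ p * δ ≤ ε / 4 := by
    have h1 : 0 ≤ (R + K + R ^ p) * δ := by positivity
    linarith
  refine ⟨f, fun j _ => ?_, ?_, fun i => ?_, ?_⟩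
  · rw [← two_lamF, map_pow, map_mul, lamF_gb]
    exact est4 hFR hlb j
  · rw [← two_lamF, map_sub, map_mul, lamF_mst, map_one]
    refine pow_le_pow_left₀ (two_nonneg _) ?_ 2
    have h1 := est1 hFR hxR hf2
    linarith
  · rw [← two_lamF, map_sub, map_mul, map_mul]
    refine pow_le_pow_left₀ (two_nonneg _) ?_ 2
    have h0 : two (x * lamF (lau (q i)) - lamF (lau (q i)) * x) < 3 * εc / 2 :=
      lt_of_pow_lt_pow_left₀ 2 (by positivity)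
        (hi2 (q i) (Finset.mem_image_of_mem q (Finset.mem_univ i)))
    have hcK : ‖lamF (lau (q i))‖ ≤ K :=
      Finset.single_le_sum (f := fun i => ‖lamF (lau (q i))‖) (fun c _ => norm_nonneg _)
        (Finset.mem_univ i)
    have h1 := est2 hcK hf2
    linarith
  · rw [← tau_lamA, map_pow, map_mul]
    have h1 := est3 hR1 hFR hxR hlb hf2 p
    have h2 : E - ε ≤ (TrAlg.tau ((lb * lamF f) ^ p)).re := by linarith
    rw [← lamF_gb] at h2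
    exact h2

end Pool.Agent.OGP
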