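import Pool.Agent.OGP.OB.Bridge

/-!
# OGP, operator algebra part: Kaplansky density for the group von Neumann algebra

The function `H(y) = 2 y (1 + y* y)⁻¹` is contractive and Lipschitz in the 2-norm; every `T` with
`‖T‖ ≤ 1/2` is `H(X)`, `‖X‖ ≤ 1` (fixed point).  This gives the density theorem with a constant
(norm bound `4 R`).
-/

open Filter Topology

namespace Pool.Agent.OGP

section gen
variable {A : Type*} [CStarAlgebra A]

/-- `(1 + y* y)⁻¹`. -/
noncomputable def rs (y : A) : A := cfc (fun t : ℝ => (1 + t)⁻¹) (star y * y)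

theorem spec_pos (y : A) {t : ℝ} (ht : t ∈ spectrum ℝ (star y * y)) : 0 < 1 + t := by
  have := spectrum_star_mul_self_nonneg t ht
  linarith

theorem cont_rs (y : A) :
    ContinuousOn (fun t : ℝ => (1 + t)⁻¹) (spectrum ℝ (star y * y)) :=
  ContinuousOn.inv₀ (by fun_prop) fun t ht => (spec_pos y ht).ne'

theorem sa (y : A) : IsSelfAdjoint (star y * y) := IsSelfAdjoint.star_mul_self y

theorem star_rs (y : A) : star (rs y) = rs y := by
  have h : IsSelfAdjoint (rs y) := cfc_predicate _ _
  exact h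

theorem cfc_one_add (y : A) : cfc (fun t : ℝ => 1 + t) (star y * y) = 1 + star y * y := by
  rw [cfc_const_add (1 : ℝ) (fun t => t) (star y * y) (by fun_prop) (sa y), cfc_id' ℝ _ (sa y),
    map_one]

theorem mul_rs (y : A) : (1 + star y * y) * rs y = 1 := by
  unfold rs
  rw [← cfc_one_add, ← cfc_mul (fun t : ℝ => 1 + t) (fun t => (1 + t)⁻¹) _ (by fun_prop)
    (cont_rs y), ← cfc_one ℝ (star y * y) (sa y)]
  refine cfc_congr fun t ht => ?_
  exact mul_inv_cancel₀ (spec_pos y ht).ne'

theorem rs_mul (y : A) : rs y * (1 + star y * y) = 1 := by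
  have h := congrArg star (mul_rs y)
  rwa [star_mul, star_rs, star_add, star_one, star_mul, star_star] at h

theorem norm_rs_le (y : A) : ‖rs y‖ ≤ 1 := by
  refine norm_cfc_le zero_le_one fun t ht => ?_
  have h := spectrum_star_mul_self_nonneg t ht
  rw [Real.norm_eq_abs, abs_of_nonneg (by positivity)]
  exact inv_le_one_of_one_le₀ (by linarith)

theorem norm_mul_rs_le (y : A) : ‖y * rs y‖ ≤ 1 / 2 := by
  have h1 : star (y * rs y) * (y * rs y) =
      cfc (fun t : ℝ => (1 + t)⁻¹ * t * (1 + t)⁻¹) (star y * y) := by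
    have h2 : cfc (fun t : ℝ => (1 + t)⁻¹ * t * (1 + t)⁻¹) (star y * y) =
        rs y * (star y * y) * rs y := by
      rw [cfc_mul (fun t : ℝ => (1 + t)⁻¹ * t) (fun t => (1 + t)⁻¹) _
        ((cont_rs y).mul continuousOn_id) (cont_rs y),
        cfc_mul (fun t : ℝ => (1 + t)⁻¹) (fun t => t) _ (cont_rs y) continuousOn_id,
        cfc_id' ℝ _ (sa y)]
      rfl
    rw [h2, star_mul, star_rs]
    simp only [mul_assoc]
  have h3 : ‖y * rs y‖ * ‖y * rs y‖ ≤ 1 / 4 := by
    rw [← CStarRing.norm_star_mul_self, h1]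
    refine norm_cfc_le (by norm_num) fun t ht => ?_
    have h := spectrum_star_mul_self_nonneg t ht
    rw [Real.norm_eq_abs, abs_of_nonneg (by positivity)]
    have e : (1 + t)⁻¹ * t * (1 + t)⁻¹ = t / (1 + t) ^ 2 := by
      field_simp
    rw [e, div_le_div_iff₀ (by positivity) (by norm_num)]
    nlinarith [sq_nonneg (1 - t)]
  nlinarith [norm_nonneg (y * rs y)]

theorem mul_rs_eq (y : A) : y * rs y = rs (star y) * y := by
  have h1 := rs_mul (star y)
  rw [star_star] at h1
  calc y * rs y = (rs (star y) * (1 + y * star y)) * (y * rs y) := by rw [h1, one_mul]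
    _ = rs (star y) * (y * ((1 + star y * y) * rs y)) := by noncomm_ring
    _ = rs (star y) * y := by rw [mul_rs, mul_one]

/-- `H(y) = 2 y (1 + y* y)⁻¹`. -/
noncomputable def hh (y : A) : A := (2 : ℂ) • (y * rs y)

theorem norm_hh_le (y : A) : ‖hh y‖ ≤ 1 := by
  unfold hh
  rw [norm_smul]
  have := norm_mul_rs_le y
  norm_num
  linarith

theorem mul_rs_sub (x y : A) : x * rs x - y * rs y =
    rs (star x) * ((x - y) + x * (star y - star x) * y) * rs y := by
  have h1 := rs_mul (star x)
  rw [star_star] at h1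
  have h2 := mul_rs y
  calc x * rs x - y * rs y = rs (star x) * x * ((1 + star y * y) * rs y) -
        (rs (star x) * (1 + x * star x)) * (y * rs y) := by
        rw [h1, h2, mul_one, one_mul, mul_rs_eq]
    _ = _ := by noncomm_ring

/-- `T = H(X)` if `X` is a fixed point. -/
theorem hh_of_fixed {T X : A} (h : (2 : ℂ) • X = T * (1 + star X * X)) : hh X = T := by
  unfold hh
  rw [← smul_mul_assoc, h, mul_assoc, mul_rs, mul_one]

theorem exists_hh {T : A} (hT : ‖T‖ ≤ 1 / 2) : ∃ X : A, ‖X‖ ≤ 1 ∧ hh X = T := by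
  set F : A → A := fun X => (2 : ℂ)⁻¹ • (T * (1 + star X * X)) with hF
  have hone : ‖(1 : A)‖ ≤ 1 := by
    rcases subsingleton_or_nontrivial A with h | h
    · rw [Subsingleton.elim (1 : A) 0, norm_zero]
      exact zero_le_one
    · exact (CStarRing.norm_one).le
  have h2 : ‖(2 : ℂ)⁻¹‖ = 1 / 2 := by norm_num
  have hmap : Set.MapsTo F (Metric.closedBall 0 1) (Metric.closedBall 0 1) := by
    intro X hX
    rw [mem_closedBall_zero_iff] at hX ⊢
    have h3 : ‖1 + star X * X‖ ≤ 2 := by
      refine (norm_add_le _ _).trans ?_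
      rw [CStarRing.norm_star_mul_self]
      nlinarith [norm_nonneg X]
    change ‖(2 : ℂ)⁻¹ • (T * (1 + star X * X))‖ ≤ 1
    rw [norm_smul, h2]
    have h4 := norm_mul_le T (1 + star X * X)
    nlinarith [norm_nonneg T, norm_nonneg (1 + star X * X)]
  have hlip : ∀ X ∈ Metric.closedBall (0 : A) 1, ∀ Y ∈ Metric.closedBall (0 : A) 1,
      ‖F X - F Y‖ ≤ 1 / 2 * ‖X - Y‖ := by
    intro X hX Y hY
    rw [mem_closedBall_zero_iff] at hX hY
    have e : F X - F Y = (2 : ℂ)⁻¹ • (T * (star X * (X - Y) + star (X - Y) * Y)) := by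
      rw [hF]
      beta_reduce
      rw [← smul_sub, ← mul_sub]
      congr 2
      rw [star_sub]
      noncomm_ring
    have h3 : ‖star X * (X - Y) + star (X - Y) * Y‖ ≤ 2 * ‖X - Y‖ := by
      refine (norm_add_le _ _).trans ?_
      have h5 := norm_mul_le (star X) (X - Y)
      have h6 := norm_mul_le (star (X - Y)) Y
      rw [norm_star] at h5 h6
      nlinarith [norm_nonneg (X - Y)]
    rw [e, norm_smul, h2]
    have h4 := norm_mul_le T (star X * (X - Y) + star (X - Y) * Y)
    nlinarith [norm_nonneg T, norm_nonneg (star X * (X - Y) + star (X - Y) * Y)]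
  have hc : ContractingWith (1 / 2 : NNReal)
      (hmap.restrict F (Metric.closedBall 0 1) (Metric.closedBall 0 1)) := by
    refine ⟨by rw [← NNReal.coe_lt_coe]; norm_num, LipschitzWith.of_dist_le_mul fun X Y => ?_⟩
    rw [Subtype.dist_eq, Subtype.dist_eq, dist_eq_norm, dist_eq_norm]
    have := hlip X X.2 Y Y.2
    simpa using this
  obtain ⟨X, hX, hfix, -⟩ := hc.exists_fixedPoint' (x := 0)
    (Metric.isClosed_closedBall.isComplete) hmap (Metric.mem_closedBall_self zero_le_one)
    (edist_ne_top _ _)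
  rw [mem_closedBall_zero_iff] at hX
  refine ⟨X, hX, hh_of_fixed ?_⟩
  have h5 : (2 : ℂ)⁻¹ • (T * (1 + star X * X)) = X := hfix
  rw [← h5, smul_smul]
  rw [h5]
  norm_num

variable [TrAlg A]

theorem two_hh_sub_le (x y : A) : two (hh x - hh y) ≤ 5 / 2 * two (x - y) := by
  unfold hh
  rw [← smul_sub, two_smul', mul_rs_sub]
  have e : rs (star x) * ((x - y) + x * (star y - star x) * y) * rs y =
      rs (star x) * (x - y) * rs y + (x * rs x) * star (y - x) * (y * rs y) := by
    rw [mul_rs_eq x, star_sub]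
    noncomm_ring
  rw [e]
  have h1 : two (rs (star x) * (x - y) * rs y) ≤ two (x - y) := by
    refine (two_mul_le' _ _).trans ?_
    have h2 := two_mul_le (rs (star x)) (x - y)
    have h3 := norm_rs_le y
    have h4 := norm_rs_le (star x)
    have h5 := two_nonneg (x - y)
    have h6 := two_nonneg (rs (star x) * (x - y))
    nlinarith [norm_nonneg (rs y), norm_nonneg (rs (star x))]
  have h2 : two ((x * rs x) * star (y - x) * (y * rs y)) ≤ 1 / 4 * two (x - y) := by
    refine (two_mul_le' _ _).trans ?_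
    have h2 := two_mul_le (x * rs x) (star (y - x))
    rw [two_star, two_sub_comm] at h2
    have h3 := norm_mul_rs_le y
    have h4 := norm_mul_rs_le x
    have h5 := two_nonneg (x - y)
    have h6 := two_nonneg (x * rs x * star (y - x))
    nlinarith [norm_nonneg (y * rs y), norm_nonneg (x * rs x)]
  have h3 := two_add_le (rs (star x) * (x - y) * rs y)
    ((x * rs x) * star (y - x) * (y * rs y))
  have h4 : ‖(2 : ℂ)‖ = 2 := by norm_num
  rw [h4]
  linarith

/-- Kaplansky density (with a constant). -/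
theorem kap_gen (S : StarSubalgebra ℂ A)
    (hS : ∀ (T : A) {ε : ℝ}, 0 < ε → ∃ s ∈ S, two (T - s) < ε)
    (T : A) {R : ℝ} (hR : 0 < R) (hT : ‖T‖ ≤ R) {ε : ℝ} (hε : 0 < ε) :
    ∃ s ∈ S, ‖s‖ ≤ 4 * R ∧ two (T - s) ≤ ε := by
  set c : ℂ := ((2 * R : ℝ) : ℂ) with hc
  have hc0 : c ≠ 0 := by
    rw [hc]
    exact Complex.ofReal_ne_zero.2 (by positivity)
  have hcn : ‖c‖ = 2 * R := by
    rw [hc, Complex.norm_real, Real.norm_eq_abs, abs_of_pos (by positivity)]
  have hT' : ‖c⁻¹ • T‖ ≤ 1 / 2 := by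
    rw [norm_smul, norm_inv, hcn, inv_mul_le_iff₀ (by positivity)]
    linarith
  obtain ⟨X, hX, hXT⟩ := exists_hh hT'
  set δ : ℝ := min 1 (ε / (2 * R) / 5) with hδ
  have hδ0 : 0 < δ := by rw [hδ]; positivity
  obtain ⟨s, hs, hs2⟩ := hS X hδ0
  have hcl : IsClosed (S.topologicalClosure : Set A) := S.isClosed_topologicalClosure
  have hsc : s ∈ S.topologicalClosure := S.le_topologicalClosure hs
  have hrs : rs s ∈ S.topologicalClosure := by
    have : star s * s ∈ S.topologicalClosure := mul_mem (star_mem hsc) hsc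
    exact cfc_mem (𝕜' := ℂ) (hs := hcl) _ this
  have hhs : hh s ∈ S.topologicalClosure := by
    unfold hh
    exact S.topologicalClosure.smul_mem (mul_mem hsc hrs) _
  obtain ⟨s', hs', hd⟩ := Metric.mem_closure_iff.1 (show hh s ∈ closure (S : Set A) from hhs) δ hδ0
  rw [dist_eq_norm] at hd
  refine ⟨c • s', S.smul_mem hs' c, ?_, ?_⟩
  · rw [norm_smul, hcn]
    have h1 : ‖s'‖ ≤ 2 := by
      have h2 := norm_sub_norm_le s' (hh s)
      rw [norm_sub_rev] at h2
      have h3 := norm_hh_le s
      have h4 : δ ≤ 1 := min_le_left _ _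
      linarith
    nlinarith
  · have e : T - c • s' = c • ((hh X - hh s) + (hh s - s')) := by
      rw [hXT, sub_add_sub_cancel, smul_sub, smul_smul, mul_inv_cancel₀ hc0, one_smul]
    rw [e, two_smul', hcn]
    have h1 := two_add_le (hh X - hh s) (hh s - s')
    have h2 := two_hh_sub_le X s
    have h3 := two_le_norm (hh s - s')
    have h4 : δ ≤ ε / (2 * R) / 5 := min_le_right _ _
    have h5 : two (hh X - hh s + (hh s - s')) ≤ ε / (2 * R) := by
      have : 0 < ε / (2 * R) := by positivity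
      linarith
    calc 2 * R * two (hh X - hh s + (hh s - s')) ≤ 2 * R * (ε / (2 * R)) :=
          mul_le_mul_of_nonneg_left h5 (by positivity)
      _ = ε := by field_simp

end gen

section group
variable (G : Type*) [Group G]

theorem isClosed_LG : IsClosed (LG G : Set (ell2 G →L[ℂ] ell2 G)) := by
  unfold LG
  rw [StarSubalgebra.coe_centralizer]
  exact Set.isClosed_centralizer _

/-- The C*-algebra structure of the group von Neumann algebra (not a global instance). -/
@[reducible] noncomputable def cstarLG : CStarAlgebra (LG G) :=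
  StarSubalgebra.cstarAlgebra _ (h_closed := isClosed_LG G)

theorem lamA_star_mem (f : MonoidAlgebra ℂ G) : ∃ g : MonoidAlgebra ℂ G,
    lamA G g = star (lamA G f) := by
  induction f using MonoidAlgebra.induction_linear with
  | zero => exact ⟨0, by rw [map_zero, star_zero]⟩
  | add f g hf hg =>
    obtain ⟨f', hf'⟩ := hf
    obtain ⟨g', hg'⟩ := hg
    exact ⟨f' + g', by rw [map_add, map_add, star_add, hf', hg']⟩
  | single g z =>
    exact ⟨MonoidAlgebra.single g⁻¹ (star z), by
      rw [lamA_single, lamA_single, star_smul, star_lamE]⟩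

/-- The image of the group algebra in the group von Neumann algebra. -/
noncomputable def lamR : StarSubalgebra ℂ (LG G) where
  toSubalgebra := (lamA G).range
  star_mem' := by
    rintro _ ⟨f, rfl⟩
    obtain ⟨g, hg⟩ := lamA_star_mem G f
    exact ⟨g, hg⟩

/-- Every `T` in `L(G)` with `‖T‖ ≤ R` is a 2-norm limit of elements `lamA f` of the group algebra
with `‖lamA f‖ ≤ 4 R`. -/
theorem kaplansky (T : LG G) {R : ℝ} (hR : 0 < R) (hT : ‖T‖ ≤ R) {ε : ℝ}
    (hε : 0 < ε) : ∃ f : MonoidAlgebra ℂ G, ‖lamA G f‖ ≤ 4 * R ∧ two (T - lamA G f) ≤ ε := by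
  obtain ⟨s, ⟨f, hf⟩, h1, h2⟩ := @kap_gen (LG G) (cstarLG G) (instTrAlgLG G) (lamR G)
    (fun T ε hε => by
    obtain ⟨f, hf⟩ := exists_two_lt G T hε
    exact ⟨lamA G f, ⟨f, rfl⟩, hf⟩) T R hR hT ε hε
  refine ⟨f, ?_, ?_⟩
  · rw [show lamA G f = s from hf]; exact h1
  · rw [show lamA G f = s from hf]; exact h2

end group

end Pool.Agent.OGP
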