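import Pool.Agent.OGP.OB.Defs

/-!
# OGP, operator algebra part: the group von Neumann algebra

`LG G` is the von Neumann algebra of the discrete group `G`: the double commutant of the left
translations on `ℓ²(G)`, with its canonical trace `⟨δ_1, T δ_1⟩`.
-/

open Filter Topology
open scoped ENNReal InnerProductSpace

namespace Pool.Agent.OGP

/-- The Hilbert space `ℓ²(G)`. -/
def ell2 (G : Type*) : Type _ := lp (fun _ : G => ℂ) 2

namespace ell2
variable (G : Type*)

noncomputable def instNACG : NormedAddCommGroup (ell2 G) :=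
  lp.normedAddCommGroup (E := fun _ : G => ℂ) (p := 2)

attribute [instance] instNACG

noncomputable def instIPS : InnerProductSpace ℂ (ell2 G) :=
  lp.instInnerProductSpace (𝕜 := ℂ) (G := fun _ : G => ℂ)

attribute [instance] instIPS

instance instComplete : CompleteSpace (ell2 G) :=
  lp.completeSpace (E := fun _ : G => ℂ) (p := 2)

variable {G}

/-- The coordinates of a vector. -/
def co (ξ : ell2 G) : G → ℂ := (show lp (fun _ : G => ℂ) 2 from ξ)

instance instCoe : CoeFun (ell2 G) fun _ => G → ℂ := ⟨co⟩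

@[ext] theorem ext {ξ η : ell2 G} (h : ∀ g, ξ g = η g) : ξ = η :=
  lp.ext (funext h)

theorem inner_eq (ξ η : ell2 G) : inner ℂ ξ η = ∑' i, inner ℂ (ξ i) (η i) :=
  lp.inner_eq_tsum (𝕜 := ℂ) (G := fun _ : G => ℂ) ξ η

theorem norm_eq (ξ : ell2 G) : ‖ξ‖ = (∑' i, ‖ξ i‖ ^ (2 : ℝ≥0∞).toReal) ^ (1 / (2 : ℝ≥0∞).toReal) :=
  lp.norm_eq_tsum_rpow (E := fun _ : G => ℂ) (p := 2) (by norm_num) ξ

theorem norm_sq_eq (ξ : ell2 G) : ‖ξ‖ ^ (2 : ℝ≥0∞).toReal = ∑' i, ‖ξ i‖ ^ (2 : ℝ≥0∞).toReal :=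
  lp.norm_rpow_eq_tsum (E := fun _ : G => ℂ) (p := 2) (by norm_num) ξ

theorem sum_co {ι : Type*} (s : Finset ι) (f : ι → ell2 G) (g : G) :
    (∑ i ∈ s, f i : ell2 G) g = ∑ i ∈ s, (f i) g := by
  have h : ((∑ i ∈ s, (show lp (fun _ : G => ℂ) 2 from f i) : lp (fun _ : G => ℂ) 2) : G → ℂ) g =
      ∑ i ∈ s, (f i) g := by
    rw [lp.coeFn_sum, Finset.sum_apply]
    rfl
  exact h

theorem smul_co (c : ℂ) (ξ : ell2 G) (g : G) : (c • ξ : ell2 G) g = c * ξ g := rfl

end ell2

section perm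
variable {G : Type*}

theorem memlp_perm (σ : G ≃ G) (ξ : ell2 G) : Memℓp (fun h => ξ (σ h)) 2 := by
  have h : Memℓp (fun h => ξ h) 2 := lp.memℓp (show lp (fun _ : G => ℂ) 2 from ξ)
  rw [memℓp_gen_iff (by norm_num)] at h ⊢
  exact (σ.summable_iff (f := fun i => ‖ξ i‖ ^ (2 : ℝ≥0∞).toReal)).2 h

/-- Permutation of the coordinates: `(perm σ ξ) h = ξ (σ h)`. -/
noncomputable def perm (σ : G ≃ G) : ell2 G →L[ℂ] ell2 G :=
  (LinearIsometry.toContinuousLinearMap
    { toFun := fun ξ => ⟨fun h => ξ (σ h), memlp_perm σ ξ⟩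
      map_add' := fun ξ η => rfl
      map_smul' := fun c ξ => rfl
      norm_map' := fun ξ => by
        rw [ell2.norm_eq, ell2.norm_eq]
        congr 1
        exact σ.tsum_eq (fun i => ‖ξ i‖ ^ (2 : ℝ≥0∞).toReal) })

@[simp] theorem perm_apply (σ : G ≃ G) (ξ : ell2 G) (h : G) : perm σ ξ h = ξ (σ h) := rfl

theorem inner_perm (σ : G ≃ G) (ξ η : ell2 G) :
    inner ℂ (perm σ ξ) η = inner ℂ ξ (perm σ.symm η) := by
  rw [ell2.inner_eq, ell2.inner_eq]
  rw [← σ.tsum_eq (fun i => inner ℂ (ξ i) (perm σ.symm η i))]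
  refine tsum_congr fun i => ?_
  rw [perm_apply, perm_apply, Equiv.symm_apply_apply]

theorem star_perm (σ : G ≃ G) : star (perm σ) = perm σ.symm := by
  rw [ContinuousLinearMap.star_eq_adjoint]
  refine ContinuousLinearMap.ext fun η => ?_
  refine ext_inner_left ℂ fun ξ => ?_
  rw [ContinuousLinearMap.adjoint_inner_right, inner_perm]

theorem perm_mul (σ τ : G ≃ G) : perm σ * perm τ = perm (σ.trans τ) := rfl

/-- The standard basis vector `δ_g`. -/
noncomputable def dl (g : G) : ell2 G := by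
  classical exact (lp.single 2 g (1 : ℂ) : lp (fun _ : G => ℂ) 2)

open Classical in
theorem dl_apply (g h : G) : dl g h = if h = g then 1 else 0 := by
  have h1 : ((lp.single 2 g (1 : ℂ) : lp (fun _ : G => ℂ) 2) : G → ℂ) h =
      if h = g then 1 else 0 := by
    rw [lp.coeFn_single, Pi.single_apply]
  exact h1

theorem inner_dl_left (g : G) (ξ : ell2 G) : inner ℂ (dl g) ξ = ξ g := by
  classical
  rw [ell2.inner_eq, tsum_eq_single g]
  · rw [dl_apply, if_pos rfl]
    change ξ g * star (1 : ℂ) = ξ g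
    rw [star_one, mul_one]
  · intro h hh
    rw [dl_apply, if_neg hh, inner_zero_left]

theorem inner_dl_right (g : G) (ξ : ell2 G) : inner ℂ ξ (dl g) = star (ξ g) := by
  rw [← inner_dl_left g ξ, ← inner_conj_symm]
  rfl

theorem norm_dl (g : G) : ‖(dl g : ell2 G)‖ = 1 := by
  have h := inner_self_eq_norm_sq_to_K (𝕜 := ℂ) (dl g : ell2 G)
  rw [inner_dl_left, dl_apply, if_pos rfl] at h
  have h2 : (1 : ℝ) = ‖(dl g : ell2 G)‖ ^ 2 := by
    apply Complex.ofReal_injective
    rw [Complex.ofReal_one, h]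
    norm_cast
  nlinarith [norm_nonneg (dl g : ell2 G)]

theorem perm_dl (σ : G ≃ G) (g : G) : perm σ (dl g) = dl (σ.symm g) := by
  ext h
  rw [perm_apply, dl_apply, dl_apply]
  by_cases h1 : σ h = g
  · rw [if_pos h1, if_pos (by rw [← h1, Equiv.symm_apply_apply])]
  · rw [if_neg h1, if_neg (fun h2 => h1 (by rw [h2, Equiv.apply_symm_apply]))]

theorem hasSum_dl (ξ : ell2 G) : HasSum (fun g => ξ g • (dl g : ell2 G)) ξ := by
  classical
  have h := lp.hasSum_single (E := fun _ : G => ℂ) (p := 2) (by norm_num)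
    (show lp (fun _ : G => ℂ) 2 from ξ)
  have e : (fun g => ξ g • (dl g : ell2 G)) = fun g => (lp.single 2 g (ξ g) :
      lp (fun _ : G => ℂ) 2) := by
    funext g
    have h2 : ξ g • (lp.single 2 g (1 : ℂ) : lp (fun _ : G => ℂ) 2) = lp.single 2 g (ξ g) := by
      rw [← lp.single_smul, smul_eq_mul, mul_one]
    exact h2
  rw [e]
  exact h

/-- An operator vanishing on all basis vectors is zero. -/
theorem clm_ext {T S : ell2 G →L[ℂ] ell2 G} (h : ∀ g, T (dl g) = S (dl g)) : T = S := by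
  refine ContinuousLinearMap.ext fun ξ => ?_
  have h1 := (hasSum_dl ξ).mapL T
  have h2 := (hasSum_dl ξ).mapL S
  have e : (fun g => T (ξ g • (dl g : ell2 G))) = fun g => S (ξ g • (dl g : ell2 G)) := by
    funext g
    rw [map_smul, map_smul, h]
  rw [e] at h1
  exact h1.unique h2

end perm

section group
variable (G : Type*) [Group G]

/-- The left translation `(lam g ξ) h = ξ (g⁻¹ h)`. -/
noncomputable def lam (g : G) : ell2 G →L[ℂ] ell2 G := perm (Equiv.mulLeft g⁻¹)

/-- The right translation `(rho g ξ) h = ξ (h g)`. -/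
noncomputable def rho (g : G) : ell2 G →L[ℂ] ell2 G := perm (Equiv.mulRight g)

/-- The group von Neumann algebra: the double commutant of the left translations. -/
noncomputable def LG : StarSubalgebra ℂ (ell2 G →L[ℂ] ell2 G) :=
  StarSubalgebra.centralizer ℂ
    (StarSubalgebra.centralizer ℂ (Set.range (lam G)) : Set (ell2 G →L[ℂ] ell2 G))

instance instClosedLG : IsClosed (LG G : Set (ell2 G →L[ℂ] ell2 G)) := by
  unfold LG
  rw [StarSubalgebra.coe_centralizer]
  exact Set.isClosed_centralizer _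

theorem lam_mul (g h : G) : lam G g * lam G h = lam G (g * h) := by
  unfold lam
  rw [perm_mul]
  congr 1
  ext k
  simp

theorem lam_one : lam G 1 = 1 := by
  refine ContinuousLinearMap.ext fun ξ => ?_
  ext k
  change ξ (1⁻¹ * k) = ξ k
  simp

theorem star_lam (g : G) : star (lam G g) = lam G g⁻¹ := by
  unfold lam
  rw [star_perm]
  congr 1
  ext k
  simp

theorem lam_dl (g h : G) : lam G g (dl h) = dl (g * h) := by
  unfold lam
  rw [perm_dl]
  simp

theorem rho_dl (g h : G) : rho G g (dl h) = dl (h * g⁻¹) := by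
  unfold rho
  rw [perm_dl]
  simp

theorem lam_rho (g h : G) : lam G g * rho G h = rho G h * lam G g := by
  refine ContinuousLinearMap.ext fun ξ => ?_
  ext k
  change ξ ((g⁻¹ * k) * h) = ξ (g⁻¹ * (k * h))
  rw [mul_assoc]

theorem lam_mem (g : G) : lam G g ∈ LG G := by
  unfold LG
  rw [StarSubalgebra.mem_centralizer_iff]
  intro T hT
  have hT2 := star_mem hT
  rw [SetLike.mem_coe, StarSubalgebra.mem_centralizer_iff] at hT
  rw [StarSubalgebra.mem_centralizer_iff] at hT2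
  exact ⟨((hT _ ⟨g, rfl⟩).1).symm, ((hT2 _ ⟨g, rfl⟩).1).symm⟩

theorem rho_mem (g : G) : rho G g ∈ StarSubalgebra.centralizer ℂ (Set.range (lam G)) := by
  rw [StarSubalgebra.mem_centralizer_iff]
  rintro _ ⟨h, rfl⟩
  rw [star_lam]
  exact ⟨lam_rho G h g, lam_rho G h⁻¹ g⟩

variable {G}

/-- An element of `LG` commutes with the right translations. -/
theorem LG_rho {T : ell2 G →L[ℂ] ell2 G} (hT : T ∈ LG G) (g : G) :
    T * rho G g = rho G g * T := by
  unfold LG at hT
  rw [StarSubalgebra.mem_centralizer_iff] at hT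
  exact ((hT _ (rho_mem G g)).1).symm

theorem LG_dl {T : ell2 G →L[ℂ] ell2 G} (hT : T ∈ LG G) (g : G) :
    T (dl g) = rho G g⁻¹ (T (dl 1)) := by
  have h := LG_rho hT g⁻¹
  have h2 := congrArg (fun S : ell2 G →L[ℂ] ell2 G => S (dl 1)) h
  change T (rho G g⁻¹ (dl 1)) = rho G g⁻¹ (T (dl 1)) at h2
  rwa [rho_dl, inv_inv, one_mul] at h2

/-- The trace `⟨δ_1, S T δ_1⟩` in coordinates. -/
theorem inner_mul_eq {S T : ell2 G →L[ℂ] ell2 G} (hS : S ∈ LG G) :
    inner ℂ (dl 1) ((S * T) (dl 1)) = ∑' g : G, S (dl 1) g⁻¹ * T (dl 1) g := by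
  have h1 : inner ℂ (dl 1) ((S * T) (dl 1)) = inner ℂ ((star S) (dl 1)) (T (dl 1)) := by
    rw [ContinuousLinearMap.star_eq_adjoint, ContinuousLinearMap.adjoint_inner_left]
    rfl
  rw [h1, ell2.inner_eq]
  refine tsum_congr fun g => ?_
  have h2 : (star S) (dl 1) g = star (S (dl 1) g⁻¹) := by
    rw [← inner_dl_left g, ContinuousLinearMap.star_eq_adjoint,
      ContinuousLinearMap.adjoint_inner_right, LG_dl hS, inner_dl_right]
    change star (S (dl 1) (1 * g⁻¹)) = _
    rw [one_mul]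
  rw [h2]
  change T (dl 1) g * star (star (S (dl 1) g⁻¹)) = _
  rw [star_star, mul_comm]

theorem inner_mul_comm {S T : ell2 G →L[ℂ] ell2 G} (hS : S ∈ LG G) (hT : T ∈ LG G) :
    inner ℂ (dl 1) ((S * T) (dl 1)) = inner ℂ (dl 1) ((T * S) (dl 1)) := by
  rw [inner_mul_eq hS, inner_mul_eq hT, ← (Equiv.inv G).tsum_eq]
  refine tsum_congr fun g => ?_
  rw [Equiv.inv_apply, inv_inv, mul_comm]

omit [Group G] in
theorem inner_star_mul (S T : ell2 G →L[ℂ] ell2 G) (ξ : ell2 G) :
    inner ℂ ξ ((star S * T) ξ) = inner ℂ (S ξ) (T ξ) := by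
  change inner ℂ ξ (star S (T ξ)) = _
  rw [ContinuousLinearMap.star_eq_adjoint, ContinuousLinearMap.adjoint_inner_right]

variable (G)

/-- The canonical trace of the group von Neumann algebra. -/
noncomputable instance instTrAlgLG : TrAlg (LG G) where
  tau :=
    { toFun := fun T => inner ℂ (dl 1) ((T : ell2 G →L[ℂ] ell2 G) (dl 1))
      map_add' := fun S T => inner_add_right _ _ _
      map_smul' := fun c T => inner_smul_right _ _ _ }
  tau_one := by
    change inner ℂ (dl 1) (dl 1) = 1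
    rw [inner_dl_left, dl_apply, if_pos rfl]
  tau_star T := by
    change inner ℂ (dl 1) ((star (T : ell2 G →L[ℂ] ell2 G)) (dl 1)) =
      star (inner ℂ (dl 1) ((T : ell2 G →L[ℂ] ell2 G) (dl 1)))
    rw [ContinuousLinearMap.star_eq_adjoint, ContinuousLinearMap.adjoint_inner_right,
      ← inner_conj_symm]
    rfl
  tau_comm S T := inner_mul_comm S.2 T.2
  tau_pos T := by
    change 0 ≤ (inner ℂ (dl 1) ((star (T : ell2 G →L[ℂ] ell2 G) * T) (dl 1))).re
    rw [inner_star_mul]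
    exact inner_self_nonneg (𝕜 := ℂ)
  tau_faithful T h := by
    change inner ℂ (dl 1) ((star (T : ell2 G →L[ℂ] ell2 G) * T) (dl 1)) = 0 at h
    rw [inner_star_mul, inner_self_eq_zero] at h
    apply Subtype.ext
    refine clm_ext fun g => ?_
    rw [LG_dl T.2, h, map_zero]
    rfl
  tau_mul_le S T := by
    change (inner ℂ (dl 1) ((star ((S : ell2 G →L[ℂ] ell2 G) * T) *
      ((S : ell2 G →L[ℂ] ell2 G) * T)) (dl 1))).re ≤
      ‖(S : ell2 G →L[ℂ] ell2 G)‖ ^ 2 *
      (inner ℂ (dl 1) ((star (T : ell2 G →L[ℂ] ell2 G) * T) (dl 1))).re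
    rw [inner_star_mul, inner_star_mul]
    have h1 : ∀ ξ : ell2 G, (inner ℂ ξ ξ).re = ‖ξ‖ ^ 2 := fun ξ => by
      rw [inner_self_eq_norm_sq_to_K]
      norm_cast
    rw [h1, h1, ← mul_pow]
    exact pow_le_pow_left₀ (norm_nonneg _) ((S : ell2 G →L[ℂ] ell2 G).le_opNorm _) 2

end group

end Pool.Agent.OGP
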