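import Pool.Agent.OGP.OB.Exist

/-!
# MP_31a6bd_an, the definitions of the statement

* `Bdd A`: norm bounded families in the C*-algebras `A i`; `TU A 𝒰`: the tracial ultraproduct, the
  quotient by the families with `lim ‖x i‖₂ = 0` along `𝒰`, with its trace `tr`.
* `MU 𝒰`: the tracial ultraproduct of the matrix algebras `M_{n+1}(ℂ)`, `n ∈ ℕ`.
* `LF2`: the group von Neumann algebra of the free group on two generators, the double commutant
  of the left translations on `ℓ²(F_2)`, with the trace `⟨δ_1, T δ_1⟩`.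
* `LU 𝒱`: the tracial ultrapower of `LF2`, `dg` the diagonal embedding.
-/

open Filter Topology
open scoped ENNReal InnerProductSpace

universe u

namespace Pool.Agent.OGP.St

set_option warn.classDefReducibility false

/-! ### Bounded families and tracial ultraproducts -/

section
variable {I : Type*} (A : I → Type*) [∀ i, CStarAlgebra (A i)]

/-- The type of norm bounded families. -/
def Bdd : Type _ := ↥(BF A)

/-- The ring of norm bounded families. -/
noncomputable def instRingBdd : Ring (Bdd A) := SubringClass.toRing (BF A)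

attribute [instance] instRingBdd

noncomputable def instAlgebraBdd : Algebra ℂ (Bdd A) := (BF A).algebra

attribute [instance] instAlgebraBdd

noncomputable def instStarBdd : Star (Bdd A) := StarMemClass.instStar (BF A)

attribute [instance] instStarBdd

variable {A}

/-- The entries of a bounded family. -/
def Bdd.at (x : Bdd A) (i : I) : A i := x.1 i

variable (A) (𝒰 : Ultrafilter I) [∀ i, TrAlg (A i)]

variable {A}

/-- The 2-norm of the difference tends to zero. -/
def Near (x y : Bdd A) : Prop := Tendsto (fun i => two (x.at i - y.at i)) 𝒰 (𝓝 0)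

theorem near_equiv : Equivalence (Near 𝒰 : Bdd A → Bdd A → Prop) := (nullCon A 𝒰).iseqv

theorem near_mul {w x y z : Bdd A} (h : Near 𝒰 w x) (h' : Near 𝒰 y z) :
    Near 𝒰 (w * y) (x * z) := (nullCon A 𝒰).mul' h h'

theorem near_add {w x y z : Bdd A} (h : Near 𝒰 w x) (h' : Near 𝒰 y z) :
    Near 𝒰 (w + y) (x + z) := (nullCon A 𝒰).add' h h'

variable (A)

/-- Two bounded families are identified if the 2-norm of their difference tends to zero. -/
noncomputable def nul : RingCon (Bdd A) where
  r := Near 𝒰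
  iseqv := near_equiv 𝒰
  mul' := near_mul 𝒰
  add' := near_add 𝒰

/-- The tracial ultraproduct of the family `A` along `𝒰`. -/
def TU : Type _ := (nul A 𝒰).Quotient

namespace TU

noncomputable def instRing : Ring (TU A 𝒰) := (nul A 𝒰).instRingQuotient

attribute [instance] instRing

noncomputable def instAlgebra : Algebra ℂ (TU A 𝒰) := (nul A 𝒰).instAlgebraQuotient

attribute [instance] instAlgebra

/-- The class of a bounded family. -/
noncomputable def mk (x : Bdd A) : TU A 𝒰 := (nul A 𝒰).toQuotient x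

theorem mk_star {x y : Bdd A} (h : Near 𝒰 x y) : mk A 𝒰 (star x) = mk A 𝒰 (star y) :=
  OGP.TU.star_resp A 𝒰 ((nullCon A 𝒰).eq.2 h)

noncomputable def instStar : Star (TU A 𝒰) where
  star := Quotient.lift (fun x : Bdd A => mk A 𝒰 (star x)) fun _ _ h => mk_star A 𝒰 h

attribute [instance] instStar

/-- The limit of the traces. -/
noncomputable def limTau (x : Bdd A) : ℂ :=
  limUnder (𝒰 : Filter I) fun i => TrAlg.tau (x.at i)

theorem limTau_eq {x y : Bdd A} (h : Near 𝒰 x y) : limTau A 𝒰 x = limTau A 𝒰 y := by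
  have h2 := congrArg (OGP.TU.tr A 𝒰) ((nullCon A 𝒰).eq.2 h)
  exact h2

/-- The trace of the ultraproduct: the limit of the traces. -/
noncomputable def tr : TU A 𝒰 → ℂ := Quotient.lift (limTau A 𝒰) fun _ _ h => limTau_eq A 𝒰 h

end TU

variable {I : Type*} (𝒱 : Ultrafilter I) (B : Type*) [CStarAlgebra B]

/-- The constant family. -/
def cst (b : B) : Bdd (fun _ : I => B) := ⟨fun _ => b, ‖b‖, fun _ => le_rfl⟩

/-- The diagonal embedding of `B` in its ultrapower. -/
noncomputable def dg [TrAlg B] (b : B) : TU (fun _ : I => B) 𝒱 := TU.mk _ 𝒱 (cst B b)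

end

/-! ### The matrix ultraproduct -/

section
open scoped Matrix.Norms.L2Operator

/-- The matrix algebra `M_{n+1}(ℂ)`. -/
abbrev Mn (n : ℕ) : Type := Matrix (Fin (n + 1)) (Fin (n + 1)) ℂ

/-- The tracial ultraproduct of the matrix algebras `M_{n+1}(ℂ)` with the operator norm and the
normalised trace, `n ∈ ℕ`, along `𝒰`. -/
def MU (𝒰 : Ultrafilter ℕ) : Type := TU Mn 𝒰

namespace MU

variable (𝒰 : Ultrafilter ℕ)

noncomputable def instRing : Ring (MU 𝒰) := TU.instRing _ 𝒰

attribute [instance] instRing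

noncomputable def instAlgebra : Algebra ℂ (MU 𝒰) := TU.instAlgebra _ 𝒰

attribute [instance] instAlgebra

noncomputable def instStar : Star (MU 𝒰) := TU.instStar _ 𝒰

attribute [instance] instStar

/-- A sequence of unitary matrices as a bounded family. -/
def bf (U : ∀ n : ℕ, UG (Fin (n + 1))) : Bdd Mn :=
  ⟨fun n => (U n : Matrix (Fin (n + 1)) (Fin (n + 1)) ℂ), 1, fun _ => norm_unitary_le _⟩

/-- The class in the matrix ultraproduct of a sequence of unitary matrices. -/
noncomputable def cls (U : ∀ n : ℕ, UG (Fin (n + 1))) : MU 𝒰 := TU.mk _ 𝒰 (bf U)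

variable {𝒰} in
/-- The trace of the matrix ultraproduct. -/
noncomputable def tr : MU 𝒰 → ℂ := TU.tr _ 𝒰

end MU

end

/-! ### The von Neumann algebra of the free group -/

/-- The bounded operators on `ℓ²(F_2)`. -/
def Ops : Type := ell2 (FreeGroup (Fin 2)) →L[ℂ] ell2 (FreeGroup (Fin 2))

noncomputable def instOps : CStarAlgebra Ops :=
  instCStarAlgebraContinuousLinearMapComplexIdOfCompleteSpace (E := ell2 (FreeGroup (Fin 2)))

attribute [instance] instOps

/-- The left translation by `g`, as an operator on `ℓ²(F_2)`. -/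
noncomputable def tra (g : FreeGroup (Fin 2)) : Ops := lam (FreeGroup (Fin 2)) g

/-- The group von Neumann algebra of `F_2`: the double commutant of the left translations. -/
noncomputable def VN : StarSubalgebra ℂ Ops :=
  StarSubalgebra.centralizer ℂ (StarSubalgebra.centralizer ℂ (Set.range tra) : Set Ops)

/-- The group von Neumann algebra of `F_2` as a type. -/
def LF2 : Type := ↥VN

theorem closed_VN : IsClosed (VN : Set Ops) := instClosedLG (FreeGroup (Fin 2))

noncomputable def instLF2 : CStarAlgebra LF2 :=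
  StarSubalgebra.cstarAlgebra VN (h_closed := closed_VN)

attribute [instance] instLF2

/-- The value `T ξ` of an operator. -/
noncomputable def app (T : Ops) (ξ : ell2 (FreeGroup (Fin 2))) : ell2 (FreeGroup (Fin 2)) :=
  (show ell2 (FreeGroup (Fin 2)) →L[ℂ] ell2 (FreeGroup (Fin 2)) from T) ξ

/-- The vector state `⟨δ_1, T δ_1⟩`. -/
noncomputable def vs (T : LF2) : ℂ := inner ℂ (dl 1) (app T.1 (dl 1))

theorem vs_add (S T : LF2) : vs (S + T) = vs S + vs T := inner_add_right _ _ _

theorem vs_smul (c : ℂ) (T : LF2) : vs (c • T) = c • vs T := inner_smul_right _ _ _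

/-- The canonical trace `⟨δ_1, T δ_1⟩` of the group von Neumann algebra. -/
noncomputable def tauF : LF2 →ₗ[ℂ] ℂ where
  toFun := vs
  map_add' := vs_add
  map_smul' := vs_smul

theorem tauF_one : tauF 1 = 1 := (instTrAlgLG (FreeGroup (Fin 2))).tau_one
theorem tauF_star (x : LF2) : tauF (star x) = star (tauF x) :=
  (instTrAlgLG (FreeGroup (Fin 2))).tau_star x
theorem tauF_comm (x y : LF2) : tauF (x * y) = tauF (y * x) :=
  (instTrAlgLG (FreeGroup (Fin 2))).tau_comm x y
theorem tauF_pos (x : LF2) : 0 ≤ (tauF (star x * x)).re :=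
  (instTrAlgLG (FreeGroup (Fin 2))).tau_pos x
theorem tauF_faithful (x : LF2) (h : tauF (star x * x) = 0) : x = 0 :=
  (instTrAlgLG (FreeGroup (Fin 2))).tau_faithful x h
theorem tauF_mul_le (x y : LF2) :
    (tauF (star (x * y) * (x * y))).re ≤ ‖x‖ ^ 2 * (tauF (star y * y)).re :=
  (instTrAlgLG (FreeGroup (Fin 2))).tau_mul_le x y

noncomputable def instTrLF2 : TrAlg LF2 where
  tau := tauF
  tau_one := tauF_one
  tau_star := tauF_star
  tau_comm := tauF_comm
  tau_pos := tauF_pos
  tau_faithful := tauF_faithful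
  tau_mul_le := tauF_mul_le

attribute [instance] instTrLF2

theorem tra_mem (g : FreeGroup (Fin 2)) : tra g ∈ VN := lam_mem _ g

/-- The group element `g` in the group von Neumann algebra. -/
noncomputable def gen (g : FreeGroup (Fin 2)) : LF2 := ⟨tra g, tra_mem g⟩

/-! ### Embeddings -/

/-- The tracial ultrapower of `L(F_2)`. -/
def LU {I : Type u} (𝒱 : Ultrafilter I) : Type u := TU (fun _ : I => LF2) 𝒱

namespace LU

variable {I : Type u} (𝒱 : Ultrafilter I)

noncomputable def instRing : Ring (LU 𝒱) := TU.instRing _ 𝒱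

attribute [instance] instRing

noncomputable def instAlgebra : Algebra ℂ (LU 𝒱) := TU.instAlgebra _ 𝒱

attribute [instance] instAlgebra

noncomputable def instStar : Star (LU 𝒱) := TU.instStar _ 𝒱

attribute [instance] instStar

variable {𝒱} in
/-- The trace of the ultrapower. -/
noncomputable def tr : LU 𝒱 → ℂ := TU.tr _ 𝒱

/-- The diagonal embedding. -/
noncomputable def diag (x : LF2) : LU 𝒱 := dg 𝒱 LF2 x

end LU

/-- A unital *-homomorphism `π : L(F_2) → MU 𝒰` is an embedding if it is trace preserving and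
injective. -/
def IsEmb {𝒰 : Ultrafilter ℕ} (π : LF2 →⋆ₐ[ℂ] MU 𝒰) : Prop :=
  (∀ x, MU.tr (π x) = TrAlg.tau x) ∧ Function.Injective π

/-- An embedding `π : L(F_2) → MU 𝒰` is existential. -/
def IsExistential {𝒰 : Ultrafilter ℕ} (π : LF2 →⋆ₐ[ℂ] MU 𝒰) : Prop :=
  ∃ (I : Type u) (𝒱 : Ultrafilter I) (θ : MU 𝒰 →⋆ₐ[ℂ] LU 𝒱),
    (∀ x, LU.tr (θ x) = MU.tr x) ∧ Function.Injective θ ∧ ∀ x, θ (π x) = LU.diag 𝒱 x

end Pool.Agent.OGP.St
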