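import Pool.Agent.OGP.OB.FinalB
import Pool.Agent.OGP.OB.StDefs

open MeasureTheory Filter Topology

/-!
# The main theorem, first with the definitions used in the proofs (`old`), then, by unfolding, with
the definitions of the statement (`main`)
-/

universe u v

namespace Pool.Agent.OGP.St

open Pool.Agent.OGP

theorem old {Ω : Type v} [MeasurableSpace Ω] (P : Measure Ω) [IsProbabilityMeasure P]
    (U V : ∀ n : ℕ, Ω → UG (Fin (n + 1))) (hU : ∀ n, Measurable (U n))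
    (hV : ∀ n, Measurable (V n))
    (hlaw : ∀ n, P.map (fun ω => (U n ω, V n ω)) =
      (haarU (Fin (n + 1))).prod (haarU (Fin (n + 1)))) :
    ∀ᵐ ω ∂P, ∀ 𝒰 : Ultrafilter ℕ, (∀ n, 𝒰 ≠ pure n) →
      (∃ π : OGP.LF2 →⋆ₐ[ℂ] OGP.MU 𝒰, OGP.IsEmb π ∧
        π la = OGP.MU.cls 𝒰 (fun n => U n ω) ∧ π lb = OGP.MU.cls 𝒰 (fun n => V n ω)) ∧
      ∀ π : OGP.LF2 →⋆ₐ[ℂ] OGP.MU 𝒰, π la = OGP.MU.cls 𝒰 (fun n => U n ω) →
        π lb = OGP.MU.cls 𝒰 (fun n => V n ω) → ¬ OGP.IsExistential.{u} π := by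
  filter_upwards [no_theta.{u} P U V hU hV hlaw, free_ae P U V hU hV hlaw] with ω h1 h2 𝒰 h𝒰
  have h3 : (𝒰 : Filter ℕ) ≤ atTop := by
    rcases 𝒰.le_cofinite_or_eq_pure with h | ⟨n, h⟩
    · rwa [Nat.cofinite_eq_atTop] at h
    · exact absurd h (h𝒰 n)
  refine ⟨exists_emb 𝒰 h3 _ _ fun g hg => (h2 g hg).mono_left h3, ?_⟩
  rintro π hπa hπb ⟨I, 𝒱, θ, htr, -, hθ⟩
  refine h1 𝒰 h3 I 𝒱 θ htr ?_ ?_
  · rw [← hπa, hθ]
  · rw [← hπb, hθ]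

theorem main {Ω : Type v} [MeasurableSpace Ω] (P : Measure Ω) [IsProbabilityMeasure P]
    (U V : ∀ n : ℕ, Ω → UG (Fin (n + 1))) (hU : ∀ n, Measurable (U n))
    (hV : ∀ n, Measurable (V n))
    (hlaw : ∀ n, P.map (fun ω => (U n ω, V n ω)) =
      (haarU (Fin (n + 1))).prod (haarU (Fin (n + 1)))) :
    ∀ᵐ ω ∂P, ∀ 𝒰 : Ultrafilter ℕ, (∀ n, 𝒰 ≠ pure n) →
      (∃ π : St.LF2 →⋆ₐ[ℂ] St.MU 𝒰, St.IsEmb π ∧
        π (St.gen (FreeGroup.of 0)) = St.MU.cls 𝒰 (fun n => U n ω) ∧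
        π (St.gen (FreeGroup.of 1)) = St.MU.cls 𝒰 (fun n => V n ω)) ∧
      ∀ π : St.LF2 →⋆ₐ[ℂ] St.MU 𝒰,
        π (St.gen (FreeGroup.of 0)) = St.MU.cls 𝒰 (fun n => U n ω) →
        π (St.gen (FreeGroup.of 1)) = St.MU.cls 𝒰 (fun n => V n ω) →
        ¬ St.IsExistential.{u} π := by
  have h := old.{u} P U V hU hV hlaw
  exact h

end Pool.Agent.OGP.St
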